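import Pool.Agent.Helper59.RG.Defs

/-!
# Block RG-NTP: the denominators `c ^ k * (k!) ^ κ`

PROOF.  As `nnP` in `RF/FinP.lean`, with `winNT`, `winAT` instead of `winN`, `winA`; `winPropT_congr` is the analogue of `winProp_congr` (copy its proof; the
two additional fields `f1`, `f2` of `WT` are treated like `e1`, `e2`).
-/

namespace Pool.Agent.Helper59.RG

open Finset
open Pool.Agent.Helper59.RF (Bs WinPropT NP)

theorem winPropT_congr {N N' : ℕ → ℝ} (hN : WinPropT N) (kB : ℕ) (h : ∀ k, kB ≤ k → N k = N' k) :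
    WinPropT N' := by
  obtain ⟨t0, ht0, ht1, hW⟩ := hN
  refine ⟨t0, ht0, ht1, fun δ hδ0 hδ1 d Q hd hQ => ?_⟩
  obtain ⟨S₀, hS₀⟩ := hW δ hδ0 hδ1 d Q hd hQ
  refine ⟨S₀ + kB ^ 2 + kB + 1, fun s hs Z hZ1 hZ2 => ?_⟩
  obtain ⟨w⟩ := hS₀ s (by omega) Z (by rw [h s (by nlinarith)]; exact hZ1)
    (by rw [h (s + 1) (by nlinarith)]; exact hZ2)
  have hs1 : (1 : ℝ) ≤ s := by exact_mod_cast (by omega : 1 ≤ s)
  have hk : ∀ k : ℕ, (s : ℝ) ^ (1 - δ / 4) ≤ k → N k = N' k := by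
    intro k hk1
    refine h k ?_
    have e1 : ((kB : ℝ) ^ 2) ≤ s := by
      have : kB ^ 2 ≤ s := by omega
      exact_mod_cast this
    have e2 : (s : ℝ) ^ (1 / 2 : ℝ) ≤ (s : ℝ) ^ (1 - δ / 4) :=
      Real.rpow_le_rpow_of_exponent_le hs1 (by linarith)
    have e3 : (kB : ℝ) ≤ (s : ℝ) ^ (1 / 2 : ℝ) := by
      rw [← Real.sqrt_eq_rpow]
      exact Real.le_sqrt_of_sq_le e1
    have e4 : (kB : ℝ) ≤ k := by linarith
    exact_mod_cast e4
  refine ⟨⟨⟨w.W, w.TT, w.u, w.mem, w.disj, w.range, ?_, w.inj, w.card_le, w.card_ge, w.u_ge, ?_, ?_,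
    ?_⟩, ?_, ?_, ?_⟩⟩
  · intro i hi j τ hτ
    have e : ∏ l, N' (τ l) = ∏ l, N (τ l) :=
      Finset.prod_congr rfl fun l _ => (hk _ (w.range i hi j l _ (w.mem i hi j τ hτ l)).1).symm
    rw [e]
    exact w.tight i hi j τ hτ
  · intro i hi j K hK
    rw [← hk _ (w.range i hi j _ K hK).1]
    exact w.e1 i hi j K hK
  · intro i hi i' hi' hii j j' K hK l k hk'
    rw [← hk _ (w.range i hi j _ K hK).1, ← hk _ (w.range i' hi' j' _ k hk').1]
    exact w.e2 i hi i' hi' hii j j' K hK l k hk'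
  · intro i hi j τ hτ c hc k hkk
    have e : ∏ l, N' (k l) = ∏ l, N (k l) :=
      Finset.prod_congr rfl fun l _ => (hk _ (w.range i hi (c l) _ _ (hkk l)).1).symm
    rw [e, ← hk _ (w.range i hi j _ _ (w.mem i hi j τ hτ _)).1]
    exact w.e3 i hi j τ hτ c hc k hkk
  · intro i hi j K hK
    rw [← hk _ (w.range i hi j _ K hK).1]
    exact w.f1 i hi j K hK
  · intro i hi i' hi' hii j j' K hK l k hk'
    rw [← hk _ (w.range i hi j _ K hK).1, ← hk _ (w.range i' hi' j' _ k hk').1]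
    exact w.f2 i hi i' hi' hii j j' K hK l k hk'
  · intro i hi j τ hτ c hc k hkk
    have e : ∏ l, N' (k l) = ∏ l, N (k l) :=
      Finset.prod_congr rfl fun l _ => (hk _ (w.range i hi (c l) _ _ (hkk l)).1).symm
    rw [e, ← hk _ (w.range i hi j _ _ (w.mem i hi j τ hτ _)).1]
    exact w.f3 i hi j τ hτ c hc k hkk

theorem ntP (c κ : ℝ) (hc : 0 < c) (hκ : 0 ≤ κ) (h : 0 < κ ∨ 1 < c) :
    ∃ (kB : ℕ) (N' : ℕ → ℝ), (∀ k, kB ≤ k → NP c κ k = N' k) ∧ NT N' := by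
  obtain ⟨D, k₁, hg⟩ := RF.np_growth c κ hc hκ
  rcases hκ.lt_or_eq with h1 | h1
  · obtain ⟨kB, hkB⟩ := RF.np_kB c κ hc h1
    have he : ∀ k, kB ≤ k → NP c κ k = RF.NPt c κ kB k := by
      intro k hk
      unfold RF.NPt
      rw [if_pos hk]
    refine ⟨kB, RF.NPt c κ kB, he, RF.npt_bs c κ hc kB hkB,
      winPropT_congr (RF.winNT (RF.np_gp c κ hc h1)) kB he, D, max k₁ kB, fun k hk => ?_⟩
    rw [← he k ((le_max_right _ _).trans hk)]
    exact hg k ((le_max_left _ _).trans hk)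
  · subst h1
    have hc1 : 1 < c := by
      rcases h with h | h
      · exact absurd h (lt_irrefl _)
      · exact h
    have he : ∀ k, NP c 0 k = c ^ k := by
      intro k
      unfold RF.NP
      rw [Real.rpow_zero, mul_one]
    refine ⟨0, fun k => c ^ k, fun k _ => he k, RF.bsA c hc1, RF.winAT c hc1, D, k₁,
      fun k hk => ?_⟩
    rw [← he k]
    exact hg k hk

end Pool.Agent.Helper59.RG
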