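import Pool.Agent.Helper59.RG.AsG
import Pool.Agent.Helper59.RG.NTp

/-!
# Block RG-MAIN: the theorem on random series

PROOF.  `mainP` (on the sequence space): `ntP (1/r) κ` gives `kB`, `N'`, `NT N'`, `1 / N' k = r^k / (k!)^κ =: v k` for `k ≥ kB` (`NP (1/r) κ k = (1/r)^k (k!)^κ`).  Almost
every `y` satisfies `|y k| ≤ B k = C (k+1)^A` for all `k` and the conclusion of `asG` for `N'` and for all `q ≥ kB`, all rational `b' > 1`, `w > 0`, `α`, `β` satisfying the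
hypotheses (countably many; `ae_all_iff`; `δ` is replaced by `min δ (1/4)`, as in `mainN`).  For such a `y` with `X > 1`, `P X ≠ 0`: choose rational `b'`, `w` with
`1 < b' < X < b' + w` and `P ≠ 0` on `[b', b' + w]` (continuity); `q ≥ kB` with `ser N' q B` and `|X - S_q(y)| ≤ ser N' q B` small (`tail_tendsto`; `X = S_q(y) + ser N' q y`,
because `y k v k = y k / N' k` for `k ≥ q ≥ kB`; `Summable.sum_add_tsum_nat_add` or `ser`), and rational `α ≤ S_q(y) ≤ β` close to it.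
`mainR`: the sequence `ξ · ω` has the law `infinitePi (fun k => μ.map (ξ k))` (`iIndepFun.map_fun_eq_infinitePi_map`), `ae_of_ae_map`; the product measure of
`μ.map (ξ k)` with itself is the map of `μ.prod μ` (`Measure.map_prod_map`).
-/

namespace Pool.Agent.Helper59.RG

open Finset MeasureTheory ProbabilityTheory Polynomial
open Pool.Agent.Helper59.RE (Concl)
open Pool.Agent.Helper59.RF (NP)

theorem mainP (r κ : ℝ) (hr : 0 < r) (hκ : 0 ≤ κ) (h : 0 < κ ∨ r < 1) (C : ℝ) (A : ℕ)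
    (x δ : ℝ) (hx : 0 < x) (hδ0 : 0 < δ) (ν : ℕ → Measure ℝ) [∀ k, IsProbabilityMeasure (ν k)]
    (hνB : ∀ k : ℕ, ∀ᵐ z ∂(ν k), |z| ≤ C * ((k : ℝ) + 1) ^ A)
    (hνx : ∀ η : ℝ, 0 < η → ∃ k₀ : ℕ, ∀ k : ℕ, k₀ ≤ k →
      (k : ℝ) ^ (-1 + δ) ≤ ((ν k).prod (ν k)).real {p : ℝ × ℝ | |p.1 - p.2 - x| ≤ η})
    (P : ℝ[X]) (a : ℕ → ℕ) (ha : StrictMono a) (c : ℕ → ℝ) :
    ∀ᵐ y ∂(Measure.infinitePi ν), 1 < ∑' k : ℕ, y k * (r ^ k / (k.factorial : ℝ) ^ κ) →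
      P.eval (∑' k : ℕ, y k * (r ^ k / (k.factorial : ℝ) ^ κ)) ≠ 0 →
      Concl (fun i => P.eval (∑' k : ℕ, y k * (r ^ k / (k.factorial : ℝ) ^ κ)) *
        (∑' k : ℕ, y k * (r ^ k / (k.factorial : ℝ) ^ κ)) ^ a i + c i) := by
  obtain ⟨kB, N', hNN, hNT⟩ := ntP (1 / r) κ (by positivity) hκ (h.imp id (fun h1 => by
    rw [lt_div_iff₀ hr, one_mul]
    exact h1))
  have hC : 0 ≤ C := by
    obtain ⟨z, hz⟩ := (hνB 0).exists
    have h1 : C * (((0 : ℕ) : ℝ) + 1) ^ A = C := by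
      rw [Nat.cast_zero, zero_add, one_pow, mul_one]
    rw [h1] at hz
    exact (abs_nonneg z).trans hz
  have hδ'0 : 0 < min δ (1 / 4) := lt_min hδ0 (by norm_num)
  have hνx' : ∀ η : ℝ, 0 < η → ∃ k₀ : ℕ, ∀ k : ℕ, k₀ ≤ k →
      (k : ℝ) ^ (-1 + min δ (1 / 4)) ≤ ((ν k).prod (ν k)).real {p : ℝ × ℝ | |p.1 - p.2 - x| ≤ η} := by
    intro η hη
    obtain ⟨k₀, hk₀⟩ := hνx η hη
    refine ⟨max k₀ 1, fun k hk => ?_⟩
    have hk1 : 1 ≤ k := (le_max_right _ _).trans hk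
    refine (Real.rpow_le_rpow_of_exponent_le (by exact_mod_cast hk1) ?_).trans (hk₀ k ((le_max_left _ _).trans hk))
    linarith [min_le_left δ (1 / 4)]
  have hvv : ∀ k, kB ≤ k → r ^ k / (k.factorial : ℝ) ^ κ = 1 / N' k := by
    intro k hk
    rw [← hNN k hk, NP, one_div, one_div, inv_pow]
    have h1 : 0 < (k.factorial : ℝ) ^ κ := Real.rpow_pos_of_pos (by exact_mod_cast k.factorial_pos) _
    have h2 : 0 < r ^ k := by positivity
    field_simp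
  have hall : ∀ᵐ y ∂(Measure.infinitePi ν), ∀ (q : ℕ) (b' w α β : ℚ), 1 < (b' : ℝ) → 0 < (w : ℝ) →
      (∀ x ∈ Set.Icc (b' : ℝ) (b' + w), P.eval x ≠ 0) →
      (b' : ℝ) ≤ α - ser N' q (fun k => C * ((k : ℝ) + 1) ^ A) →
      (β : ℝ) + ser N' q (fun k => C * ((k : ℝ) + 1) ^ A) ≤ b' + w →
      (α : ℝ) ≤ ∑ k ∈ range q, y k * (r ^ k / (k.factorial : ℝ) ^ κ) →
      ∑ k ∈ range q, y k * (r ^ k / (k.factorial : ℝ) ^ κ) ≤ (β : ℝ) →
      Concl (fun i => P.eval (∑ k ∈ range q, y k * (r ^ k / (k.factorial : ℝ) ^ κ) + ser N' q y) *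
        (∑ k ∈ range q, y k * (r ^ k / (k.factorial : ℝ) ^ κ) + ser N' q y) ^ a i + c i) := by
    rw [ae_all_iff]
    intro q
    rw [ae_all_iff]
    intro b'
    rw [ae_all_iff]
    intro w
    rw [ae_all_iff]
    intro α
    rw [ae_all_iff]
    intro β
    by_cases hc : 1 < (b' : ℝ) ∧ 0 < (w : ℝ) ∧ (∀ x ∈ Set.Icc (b' : ℝ) (b' + w), P.eval x ≠ 0) ∧
        (b' : ℝ) ≤ α - ser N' q (fun k => C * ((k : ℝ) + 1) ^ A) ∧
        (β : ℝ) + ser N' q (fun k => C * ((k : ℝ) + 1) ^ A) ≤ b' + w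
    · obtain ⟨c1, c2, c3, c4, c5⟩ := hc
      filter_upwards [asG hNT C hC A x (min δ (1 / 4)) hx hδ'0 (min_le_right _ _) ν hνB hνx' P b' w c1 c2 c3 q
        (fun k => r ^ k / (k.factorial : ℝ) ^ κ) α β c4 c5 a ha c] with y hy _ _ _ _ _ h6 h7
      exact hy h6 h7
    · exact Filter.Eventually.of_forall (fun y c1 c2 c3 c4 c5 => absurd ⟨c1, c2, c3, c4, c5⟩ hc)
  have hyB : ∀ᵐ y ∂(Measure.infinitePi ν), ∀ k : ℕ, |y k| ≤ C * ((k : ℝ) + 1) ^ A := by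
    rw [ae_all_iff]
    intro k
    exact (measurePreserving_eval_infinitePi ν k).quasiMeasurePreserving.ae (hνB k)
  filter_upwards [hall, hyB] with y hω hy h1 hP
  have hS := tail_summable hNT.bs C A
  -- splitting of the series
  have hsplit : ∀ q, kB ≤ q → ∑' k : ℕ, y k * (r ^ k / (k.factorial : ℝ) ^ κ) =
      ∑ k ∈ range q, y k * (r ^ k / (k.factorial : ℝ) ^ κ) + ser N' q y := by
    intro q hq
    have e1 : HasSum (fun k : ℕ => if q ≤ k then y k / N' k else 0) (ser N' q y) :=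
      (ser_summable hNT.bs.pos hS hy q).hasSum
    have e2 : HasSum (fun k : ℕ => if k ∈ range q then y k * (r ^ k / (k.factorial : ℝ) ^ κ) else 0)
        (∑ k ∈ range q, y k * (r ^ k / (k.factorial : ℝ) ^ κ)) := by
      have e3 : HasSum (fun k : ℕ => if k ∈ range q then y k * (r ^ k / (k.factorial : ℝ) ^ κ) else 0)
          (∑ k ∈ range q, if k ∈ range q then y k * (r ^ k / (k.factorial : ℝ) ^ κ) else 0) :=
        hasSum_sum_of_ne_finset_zero (fun k hk => if_neg hk)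
      rwa [Finset.sum_congr rfl (fun k hk => if_pos hk)] at e3
    have e4 := e2.add e1
    have e5 : (fun k : ℕ => y k * (r ^ k / (k.factorial : ℝ) ^ κ)) = fun k : ℕ =>
        (if k ∈ range q then y k * (r ^ k / (k.factorial : ℝ) ^ κ) else 0) + if q ≤ k then y k / N' k else 0 := by
      funext k
      by_cases hk : q ≤ k
      · rw [if_pos hk, if_neg (fun h2 => by have := Finset.mem_range.1 h2; omega), zero_add, hvv k (hq.trans hk)]
        ring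
      · rw [if_neg hk, if_pos (Finset.mem_range.2 (by omega)), add_zero]
    have e6 := e4.tsum_eq
    rw [← e5] at e6
    exact e6
  obtain ⟨X, hX⟩ : ∃ X, X = ∑' k : ℕ, y k * (r ^ k / (k.factorial : ℝ) ^ κ) := ⟨_, rfl⟩
  rw [← hX] at h1 hP ⊢
  have hcont : ∀ᶠ x in nhds X, P.eval x ≠ 0 := P.continuous.continuousAt.eventually_ne hP
  obtain ⟨η, hη, hη2⟩ := Metric.eventually_nhds_iff.1 hcont
  obtain ⟨m, hm⟩ : ∃ m, m = min η (X - 1) := ⟨_, rfl⟩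
  have hm0 : 0 < m := by
    rw [hm]
    exact lt_min hη (by linarith)
  have hm1 : m ≤ η := by rw [hm]; exact min_le_left _ _
  have hm2 : m ≤ X - 1 := by rw [hm]; exact min_le_right _ _
  obtain ⟨b', hb1, hb2⟩ := exists_rat_btwn (show X - m < X - m / 2 by linarith)
  obtain ⟨w, hw1, hw2⟩ := exists_rat_btwn (show X + m / 2 - b' < X + m - b' by linarith)
  obtain ⟨q, hq1, hq2⟩ : ∃ q : ℕ, kB ≤ q ∧ ser N' q (fun k => C * ((k : ℝ) + 1) ^ A) < m / 8 := by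
    have ht := (tail_tendsto hNT.bs C hC A).eventually_lt_const (show (0 : ℝ) < m / 8 by linarith)
    obtain ⟨q, g1, g2⟩ := ((Filter.eventually_ge_atTop kB).and ht).exists
    exact ⟨q, g1, g2⟩
  have hq3 := hsplit q hq1
  rw [← hX] at hq3
  have hq4 := ser_abs hNT.bs.pos hS hy q
  rw [abs_le] at hq4
  obtain ⟨S, hS'⟩ : ∃ S, S = ∑ k ∈ range q, y k * (r ^ k / (k.factorial : ℝ) ^ κ) := ⟨_, rfl⟩
  rw [← hS'] at hq3
  obtain ⟨α, hα1, hα2⟩ := exists_rat_btwn (show S - m / 8 < S by linarith)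
  obtain ⟨β, hβ1, hβ2⟩ := exists_rat_btwn (show S < S + m / 8 by linarith)
  have hfin := hω q b' w α β (by linarith) (by linarith) (fun x hx => by
    apply hη2
    rw [Real.dist_eq, abs_lt]
    constructor <;> linarith [hx.1, hx.2]) (by linarith [hq4.1, hq4.2]) (by linarith [hq4.1, hq4.2])
    (by rw [← hS']; exact hα2.le) (by rw [← hS']; exact hβ1.le)
  rw [← hS', ← hq3] at hfin
  exact hfin

theorem mainR (r κ : ℝ) (hr : 0 < r) (hκ : 0 ≤ κ) (h : 0 < κ ∨ r < 1) (C : ℝ) (A : ℕ)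
    (x δ : ℝ) (hx : 0 < x) (hδ0 : 0 < δ) {Ω : Type*} [MeasurableSpace Ω] (μ : Measure Ω)
    [IsProbabilityMeasure μ] (ξ : ℕ → Ω → ℝ) (hξ : ∀ k, Measurable (ξ k)) (hind : iIndepFun ξ μ)
    (hB : ∀ k : ℕ, ∀ᵐ ω ∂μ, |ξ k ω| ≤ C * ((k : ℝ) + 1) ^ A)
    (hsp : ∀ η : ℝ, 0 < η → ∃ k₀ : ℕ, ∀ k : ℕ, k₀ ≤ k →
      (k : ℝ) ^ (-1 + δ) ≤ (μ.prod μ).real {p : Ω × Ω | |ξ k p.1 - ξ k p.2 - x| ≤ η})
    (P : ℝ[X]) (a : ℕ → ℕ) (ha : StrictMono a) (c : ℕ → ℝ) :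
    ∀ᵐ ω ∂μ, 1 < ∑' k : ℕ, ξ k ω * (r ^ k / (k.factorial : ℝ) ^ κ) →
      P.eval (∑' k : ℕ, ξ k ω * (r ^ k / (k.factorial : ℝ) ^ κ)) ≠ 0 →
      Concl (fun i => P.eval (∑' k : ℕ, ξ k ω * (r ^ k / (k.factorial : ℝ) ^ κ)) *
        (∑' k : ℕ, ξ k ω * (r ^ k / (k.factorial : ℝ) ^ κ)) ^ a i + c i) := by
  have hp : ∀ k, IsProbabilityMeasure (μ.map (ξ k)) := fun k => Measure.isProbabilityMeasure_map (hξ k).aemeasurable
  have hlaw : μ.map (fun ω k => ξ k ω) = Measure.infinitePi (fun k => μ.map (ξ k)) :=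
    hind.map_fun_eq_infinitePi_map hξ
  have h1 := mainP r κ hr hκ h C A x δ hx hδ0 (fun k => μ.map (ξ k)) (fun k => by
    rw [ae_map_iff (hξ k).aemeasurable (measurableSet_le (by fun_prop) measurable_const)]
    exact hB k) (fun η hη => by
    obtain ⟨k₀, hk₀⟩ := hsp η hη
    refine ⟨k₀, fun k hk => (hk₀ k hk).trans (le_of_eq ?_)⟩
    rw [Measure.map_prod_map μ μ (hξ k) (hξ k), map_measureReal_apply ((hξ k).prodMap (hξ k))
      (measurableSet_le (by fun_prop) measurable_const)]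
    rfl) P a ha c
  rw [← hlaw] at h1
  exact ae_of_ae_map (measurable_pi_iff.2 hξ).aemeasurable h1

end Pool.Agent.Helper59.RG
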