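import Pool.Agent.Helper59.RG.Ser
import Pool.Agent.Helper59.RF.Bas

/-!
# Block RG-TAIL: the tails of the series

`B k = C (k+1)^A`.

PROOF.  `N k ≥ θ^(k-1) N 1` for `k ≥ 1` (`Bs.grow` in `RF/Bas.lean`).
* `tail_summable`: comparison with `C (k+1)^A θ^(1-k) / N 1` (`summable_pow_mul_geometric_of_norm_lt_one` or ratio test).
* `tail_small`: `ser N q B ≤ ∑_(k ≥ q) C (k+1)^A θ^(1-k) / N 1 ≤ C' (sqrt θ)^(-q)`, since `(k+1)^A θ^(-k/4)` is bounded, and for `q = √m` this is `≤ 1/(C1 m)`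
  for `m` large (`m ≤ (q+1)²`).  Alternatively: the summable series `∑ (k+1)^3 B k / N k` has value `K`, and for `k ≥ q`:
  `B k / N k ≤ (q+1)^(-3) (k+1)^3 B k / N k`, so `ser N q B ≤ K / (q+1)^3 ≤ K / ((q+1) m)` for `q = √m`, and `K / (q+1) ≤ 1 / C1` for `m` large.
* `tail_tendsto`: `ser N q B → 0`, e.g. by the same bound `K / (q+1)^3`.
-/

namespace Pool.Agent.Helper59.RG

open Finset
open Pool.Agent.Helper59.RF (Bs)

theorem tail_summable {N : ℕ → ℝ} (hN : Bs N) (C : ℝ) (A : ℕ) :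
    Summable fun k : ℕ => C * ((k : ℝ) + 1) ^ A / N k := by
  rw [← summable_nat_add_iff 1]
  obtain ⟨θ, hθ1, hθ2⟩ := hN.grow
  have hθ0 : (0 : ℝ) < θ := by linarith
  have hr : ‖(1 / θ : ℝ)‖ < 1 := by
    rw [Real.norm_eq_abs, abs_of_pos (by positivity)]
    exact (div_lt_one hθ0).2 hθ1
  have h1 := summable_pow_mul_geometric_of_norm_lt_one A hr
  have h2 := (summable_nat_add_iff 2).2 h1
  have h3 : Summable (fun k : ℕ => (|C| * θ ^ 2 / N 1) *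
      (((k + 2 : ℕ) : ℝ) ^ A * (1 / θ) ^ (k + 2))) := h2.mul_left _
  refine Summable.of_norm_bounded h3 (fun k => ?_)
  have h4 := hθ2 (k + 1) (by omega)
  rw [Nat.add_sub_cancel] at h4
  have h5 := hN.pos 1
  have h6 : (0 : ℝ) < θ ^ k * N 1 := by positivity
  have h7 : (0 : ℝ) ≤ (((k + 1 : ℕ) : ℝ) + 1) ^ A := by positivity
  rw [Real.norm_eq_abs, abs_div, abs_mul, abs_of_pos (hN.pos (k + 1)), abs_of_nonneg h7]
  calc |C| * (((k + 1 : ℕ) : ℝ) + 1) ^ A / N (k + 1)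
      ≤ |C| * (((k + 1 : ℕ) : ℝ) + 1) ^ A / (θ ^ k * N 1) :=
        div_le_div_of_nonneg_left (mul_nonneg (abs_nonneg _) h7) h6 h4
    _ = (|C| * θ ^ 2 / N 1) * (((k + 2 : ℕ) : ℝ) ^ A * (1 / θ) ^ (k + 2)) := by
        have h8 : (((k + 1 : ℕ) : ℝ) + 1) = ((k + 2 : ℕ) : ℝ) := by push_cast; ring
        rw [h8, one_div, inv_pow, pow_add]
        field_simp

private theorem tail_bd24 {N : ℕ → ℝ} (hN : Bs N) (C : ℝ) (hC : 0 ≤ C) (A : ℕ) :
    ∃ K : ℝ, 0 ≤ K ∧ ∀ q : ℕ, 0 ≤ ser N q (fun k => C * ((k : ℝ) + 1) ^ A) ∧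
      ser N q (fun k => C * ((k : ℝ) + 1) ^ A) ≤ K / ((q : ℝ) + 1) ^ 3 := by
  have h1 := tail_summable hN C (A + 3)
  have h2 : ∀ k : ℕ, 0 ≤ C * ((k : ℝ) + 1) ^ (A + 3) / N k := fun k =>
    div_nonneg (by positivity) (hN.pos k).le
  refine ⟨∑' k : ℕ, C * ((k : ℝ) + 1) ^ (A + 3) / N k, tsum_nonneg h2, fun q => ⟨?_, ?_⟩⟩
  · unfold ser
    refine tsum_nonneg (fun k => ?_)
    split_ifs
    · exact div_nonneg (by positivity) (hN.pos k).le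
    · exact le_rfl
  · have hB : Summable fun k : ℕ => (C * ((k : ℝ) + 1) ^ A) / N k := tail_summable hN C A
    have h3 := ser_summable (B := fun k : ℕ => C * ((k : ℝ) + 1) ^ A)
      (y := fun k : ℕ => C * ((k : ℝ) + 1) ^ A) hN.pos hB
      (fun k => (abs_of_nonneg (by positivity)).le) q
    unfold ser
    rw [← tsum_div_const]
    refine Summable.tsum_le_tsum (fun k => ?_) h3 (h1.div_const _)
    have hq : (0 : ℝ) < ((q : ℝ) + 1) ^ 3 := by positivity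
    split_ifs with h
    · rw [le_div_iff₀ hq, pow_add, ← mul_assoc, mul_div_assoc, mul_div_assoc, mul_assoc]
      have h4 : ((q : ℝ) + 1) ^ 3 ≤ ((k : ℝ) + 1) ^ 3 := by
        have : (q : ℝ) ≤ k := by exact_mod_cast h
        gcongr
      have h5 : 0 ≤ ((k : ℝ) + 1) ^ A := by positivity
      have h6 := hN.pos k
      calc C * (((k : ℝ) + 1) ^ A / N k * ((q : ℝ) + 1) ^ 3)
          ≤ C * (((k : ℝ) + 1) ^ A / N k * ((k : ℝ) + 1) ^ 3) := by gcongr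
        _ = C * ((k : ℝ) + 1) ^ A * (((k : ℝ) + 1) ^ 3 / N k) := by ring
    · exact div_nonneg (h2 k) hq.le

theorem tail_small {N : ℕ → ℝ} (hN : Bs N) (C : ℝ) (hC : 0 ≤ C) (A : ℕ) (C1 : ℝ) (hC1 : 0 < C1) :
    ∃ m₀ : ℕ, ∀ m : ℕ, m₀ ≤ m →
      2 * ser N (Nat.sqrt m) (fun k => C * ((k : ℝ) + 1) ^ A) ≤ 1 / (C1 * m) := by
  obtain ⟨K, hK0, hK⟩ := tail_bd24 hN C hC A
  refine ⟨(Nat.ceil (2 * K * C1)) ^ 2 + 1, fun m hm => ?_⟩
  obtain ⟨q, hq⟩ : ∃ q : ℕ, q = Nat.sqrt m := ⟨_, rfl⟩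
  rw [← hq]
  have h1 : Nat.ceil (2 * K * C1) ≤ q := by
    rw [hq]
    exact Nat.le_sqrt'.2 (by omega)
  have h2 : 2 * K * C1 ≤ (q : ℝ) + 1 := by
    have h3 := Nat.le_ceil (2 * K * C1)
    have h4 : ((Nat.ceil (2 * K * C1) : ℕ) : ℝ) ≤ q := by exact_mod_cast h1
    linarith
  have h3 : (m : ℝ) ≤ ((q : ℝ) + 1) ^ 2 := by
    have h4 : m < (q + 1) ^ 2 := by
      rw [hq]
      exact Nat.lt_succ_sqrt' m
    have h5 : (m : ℝ) < ((q + 1 : ℕ) : ℝ) ^ 2 := by exact_mod_cast h4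
    push_cast at h5
    exact h5.le
  have hm0 : (0 : ℝ) < m := by
    have : 0 < m := by omega
    exact_mod_cast this
  have hq0 : (0 : ℝ) < (q : ℝ) + 1 := by positivity
  have h4 := (hK q).2
  have h5 : 2 * (K / ((q : ℝ) + 1) ^ 3) ≤ 1 / (C1 * m) := by
    rw [← mul_div_assoc, div_le_div_iff₀ (by positivity) (by positivity)]
    calc 2 * K * (C1 * m) = (2 * K * C1) * m := by ring
      _ ≤ ((q : ℝ) + 1) * ((q : ℝ) + 1) ^ 2 := by
          refine mul_le_mul h2 h3 hm0.le hq0.le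
      _ = 1 * ((q : ℝ) + 1) ^ 3 := by ring
  linarith

theorem tail_tendsto {N : ℕ → ℝ} (hN : Bs N) (C : ℝ) (hC : 0 ≤ C) (A : ℕ) :
    Filter.Tendsto (fun q : ℕ => ser N q (fun k => C * ((k : ℝ) + 1) ^ A)) Filter.atTop (nhds 0) := by
  obtain ⟨K, hK0, hK⟩ := tail_bd24 hN C hC A
  have h1 : Filter.Tendsto (fun q : ℕ => K * (1 / ((q : ℝ) + 1))) Filter.atTop (nhds 0) := by
    have := (tendsto_one_div_add_atTop_nhds_zero_nat (𝕜 := ℝ)).const_mul K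
    rwa [mul_zero] at this
  refine squeeze_zero (fun q => (hK q).1) (fun q => (hK q).2.trans ?_) h1
  rw [div_eq_mul_one_div]
  refine mul_le_mul_of_nonneg_left ?_ hK0
  have hq0 : (1 : ℝ) ≤ (q : ℝ) + 1 := by
    have : (0 : ℝ) ≤ q := Nat.cast_nonneg q
    linarith
  refine one_div_le_one_div_of_le (by linarith) ?_
  calc (q : ℝ) + 1 = ((q : ℝ) + 1) ^ 1 := (pow_one _).symm
    _ ≤ ((q : ℝ) + 1) ^ 3 := pow_le_pow_right₀ hq0 (by norm_num)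

end Pool.Agent.Helper59.RG
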