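import Pool.Agent.Helper59.RG.NTp
import Pool.Agent.Helper59.RG.Tail

/-!
# Project RG: the random series converges
-/

namespace Pool.Agent.Helper59.RG

open Finset Filter
open Pool.Agent.Helper59.RF (Bs NP)

theorem sumR (r κ : ℝ) (hr : 0 < r) (hκ : 0 ≤ κ) (h : 0 < κ ∨ r < 1) (C : ℝ) (A : ℕ)
    (y : ℕ → ℝ) (hy : ∀ k : ℕ, |y k| ≤ C * ((k : ℝ) + 1) ^ A) :
    Summable fun k : ℕ => y k * (r ^ k / (k.factorial : ℝ) ^ κ) := by
  obtain ⟨kB, N', hNN, hNT⟩ := ntP (1 / r) κ (by positivity) hκ (h.imp id (fun h1 => by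
    rw [lt_div_iff₀ hr, one_mul]
    exact h1))
  have hvv : ∀ k, kB ≤ k → r ^ k / (k.factorial : ℝ) ^ κ = 1 / N' k := by
    intro k hk
    rw [← hNN k hk, NP, one_div, one_div, inv_pow]
    have h1 : 0 < (k.factorial : ℝ) ^ κ := Real.rpow_pos_of_pos (by exact_mod_cast k.factorial_pos) _
    have h2 : 0 < r ^ k := by positivity
    field_simp
  have hs := tail_summable hNT.bs C A
  refine Summable.of_norm_bounded_eventually_nat (g := fun k => C * ((k : ℝ) + 1) ^ A / N' k) hs ?_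
  filter_upwards [eventually_ge_atTop kB] with k hk
  rw [hvv k hk, mul_one_div, Real.norm_eq_abs, abs_div, abs_of_pos (hNT.bs.pos k)]
  exact div_le_div_of_nonneg_right (hy k) (hNT.bs.pos k).le

end Pool.Agent.Helper59.RG
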