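import Pool.Agent.Helper59.RG.Defs0

/-!
# Block RG-SER: the series

`ser N q y = ∑_(k ≥ q) y k / N k` for `|y k| ≤ B k`, `∑ B k / N k < ∞`, `N k > 0` (so `B k ≥ 0`).

PROOF.
* `ser_summable`: comparison with `B k / N k` (`Summable.of_norm_bounded`).
* `ser_abs`: `norm_tsum_le_tsum_norm` / `tsum_le_tsum`.
* `ser_split`: for `q ≤ q'`: `ser N q y = ∑_(k ∈ Ico q q') y k / N k + ser N q' y` (`sum_add_tsum_nat...` or: the two functions
  `if q ≤ k ∧ k < q' then ..`, `if q' ≤ k then ..` add up; `tsum_add`, `tsum_eq_sum`).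
* `ser_mid`: for `|y k| ≤ B k`: `|∑_(k ∈ Ico q q') y k / N k| ≤ ser N q B - ser N q' B` (triangle inequality and `ser_split` for `B`).
* `ser_sel`: `T ⊆ fs S c`, all elements of `S` are `≥ q`: `sel (c k) (decide (k ∈ T)) = sel (c k) false + (if k ∈ T then p.1 - p.2 else 0)`
  (`c k = inl p` for `k ∈ T`), so the difference of the two series is the finite sum over `T` (`tsum_sub`, `tsum_eq_sum`); `D` is the
  difference of the two values.
-/

namespace Pool.Agent.Helper59.RG

open Finset MeasureTheory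

theorem ser_summable {N B y : ℕ → ℝ} (hN : ∀ k, 0 < N k) (hB : Summable fun k => B k / N k)
    (hy : ∀ k, |y k| ≤ B k) (q : ℕ) : Summable fun k : ℕ => if q ≤ k then y k / N k else 0 := by
  refine Summable.of_norm_bounded hB (fun k => ?_)
  have h0 : 0 ≤ B k := (abs_nonneg _).trans (hy k)
  split_ifs with h
  · rw [Real.norm_eq_abs, abs_div, abs_of_pos (hN k)]
    exact div_le_div_of_nonneg_right (hy k) (hN k).le
  · rw [norm_zero]
    exact div_nonneg h0 (hN k).le

theorem ser_abs {N B y : ℕ → ℝ} (hN : ∀ k, 0 < N k) (hB : Summable fun k => B k / N k)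
    (hy : ∀ k, |y k| ≤ B k) (q : ℕ) : |ser N q y| ≤ ser N q B := by
  have hB0 : ∀ k, |B k| ≤ B k := fun k => (abs_of_nonneg ((abs_nonneg _).trans (hy k))).le
  have h1 := ser_summable hN hB hy q
  have h2 := ser_summable hN hB hB0 q
  unfold ser
  rw [← Real.norm_eq_abs]
  refine (norm_tsum_le_tsum_norm h1.norm).trans (Summable.tsum_le_tsum (fun k => ?_) h1.norm h2)
  split_ifs with h
  · rw [Real.norm_eq_abs, abs_div, abs_of_pos (hN k)]
    exact div_le_div_of_nonneg_right (hy k) (hN k).le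
  · rw [norm_zero]

theorem ser_split {N B y : ℕ → ℝ} (hN : ∀ k, 0 < N k) (hB : Summable fun k => B k / N k)
    (hy : ∀ k, |y k| ≤ B k) (q q' : ℕ) (hq : q ≤ q') :
    ser N q y = ∑ k ∈ Ico q q', y k / N k + ser N q' y := by
  have h2 := ser_summable hN hB hy q'
  have h3 : HasSum (fun k : ℕ => if k ∈ Ico q q' then y k / N k else 0)
      (∑ k ∈ Ico q q', (if k ∈ Ico q q' then y k / N k else 0)) :=
    hasSum_sum_of_ne_finset_zero (fun k hk => if_neg hk)
  have h4 : ∑ k ∈ Ico q q', (if k ∈ Ico q q' then y k / N k else 0) = ∑ k ∈ Ico q q', y k / N k :=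
    Finset.sum_congr rfl (fun k hk => if_pos hk)
  rw [h4] at h3
  unfold ser
  rw [← h3.tsum_eq, ← h3.summable.tsum_add h2]
  refine tsum_congr (fun k => ?_)
  by_cases a : q ≤ k
  · by_cases b : q' ≤ k
    · rw [if_pos a, if_pos b, if_neg (fun h => by have := (Finset.mem_Ico.1 h).2; omega), zero_add]
    · rw [if_pos a, if_neg b, if_pos (Finset.mem_Ico.2 ⟨a, by omega⟩), add_zero]
  · rw [if_neg a, if_neg (fun h => a (Finset.mem_Ico.1 h).1), if_neg (by omega), add_zero]

theorem ser_mid {N B y : ℕ → ℝ} (hN : ∀ k, 0 < N k) (hB : Summable fun k => B k / N k)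
    (hy : ∀ k, |y k| ≤ B k) (q q' : ℕ) (hq : q ≤ q') :
    |∑ k ∈ Ico q q', y k / N k| ≤ ser N q B - ser N q' B := by
  have hB0 : ∀ k, |B k| ≤ B k := fun k => (abs_of_nonneg ((abs_nonneg _).trans (hy k))).le
  rw [ser_split hN hB hB0 q q' hq, add_sub_cancel_right]
  refine (Finset.abs_sum_le_sum_abs _ _).trans (Finset.sum_le_sum (fun k _ => ?_))
  rw [abs_div, abs_of_pos (hN k)]
  exact div_le_div_of_nonneg_right (hy k) (hN k).le

theorem ser_sel {N B : ℕ → ℝ} (hN : ∀ k, 0 < N k) (hB : Summable fun k => B k / N k) (c : ℕ → DE)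
    (hc : ∀ k t, |sel (c k) t| ≤ B k) (q : ℕ) (S : Finset ℕ) (hS : ∀ k ∈ S, q ≤ k) (T : Finset ℕ)
    (hT : T ⊆ fs S c) :
    ser N q (fun k => sel (c k) (decide (k ∈ T))) = ser N q (fun k => sel (c k) false) +
      ∑ k ∈ T, (sel (c k) true - sel (c k) false) / N k := by
  classical
  have h1 := ser_summable hN hB (fun k => hc k (decide (k ∈ T))) q
  have h2 := ser_summable hN hB (fun k => hc k false) q
  have h3 : HasSum (fun k : ℕ => if k ∈ T then (sel (c k) true - sel (c k) false) / N k else 0)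
      (∑ k ∈ T, (if k ∈ T then (sel (c k) true - sel (c k) false) / N k else 0)) :=
    hasSum_sum_of_ne_finset_zero (fun k hk => if_neg hk)
  have h4 : ∑ k ∈ T, (if k ∈ T then (sel (c k) true - sel (c k) false) / N k else 0) =
      ∑ k ∈ T, (sel (c k) true - sel (c k) false) / N k :=
    Finset.sum_congr rfl (fun k hk => if_pos hk)
  rw [h4] at h3
  unfold ser
  rw [← h3.tsum_eq, ← h2.tsum_add h3.summable]
  refine tsum_congr (fun k => ?_)
  by_cases a : k ∈ T
  · have hk : q ≤ k := hS k (Finset.mem_filter.1 (hT a)).1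
    simp only [if_pos hk, if_pos a, decide_eq_true a]
    ring
  · simp only [if_neg a, decide_eq_false a, add_zero]

end Pool.Agent.Helper59.RG
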