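import Pool.Agent.Helper59.RG.Defs0

/-!
# Block RG-SERM: the series is measurable

PROOF.
* `measurable_ser`: `y ↦ ser N q y` is measurable on `ℕ → ℝ`: `Measurable.tsum`-type lemma if there is one for `ℝ`; otherwise: `tsum` of
  real functions is measurable because it is `if Summable then limit else 0`; NOTE `ser` is a sum over `ℕ`; a convenient way is
  `(Measurable.ennreal_tsum ..)` for the positive and negative parts, or `measurable_of_tendsto_metrizable` on the measurable set where the
  partial sums converge (`measurableSet_exists_tendsto`).
-/

namespace Pool.Agent.Helper59.RG

open Finset MeasureTheory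

theorem measurable_ser (N : ℕ → ℝ) (q : ℕ) : Measurable (fun y : ℕ → ℝ => ser N q y) := by
  have hf : ∀ k : ℕ, Measurable (fun y : ℕ → ℝ => if q ≤ k then y k / N k else 0) := by
    intro k
    split_ifs
    · exact (measurable_pi_apply k).div_const _
    · exact measurable_const
  exact Measurable.tsum hf

end Pool.Agent.Helper59.RG
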