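import Pool.Agent.Helper59.RG.Defs0
import Pool.Agent.Helper59.RF.FinS

/-!
# Project RG (MP_9056e9_nt): random series.  The conditions on the denominators
-/

namespace Pool.Agent.Helper59.RG

open Pool.Agent.Helper59.RF (Bs WinPropT)

/-- The conditions on the denominators. -/
structure NT (N : ℕ → ℝ) : Prop where
  bs : Bs N
  win : WinPropT N
  gr : ∃ D k₁ : ℕ, ∀ k : ℕ, k₁ ≤ k → N k ≤ (k : ℝ) ^ (D * k)

end Pool.Agent.Helper59.RG
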