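import Pool.Agent.Helper59.RG.Defs0

/-!
# Block RG-DEC: one digit is, with probability `w`, a fair choice between two values at distance nearly `x`

PROOF.  `D = {p | |p.1 - p.2 - x| ≤ ε}` is measurable.  If `w = 0`: `lam = ν.map Sum.inr`.  If `w > 0`: `m = (ν × ν)(D) ≥ w > 0`, `π = (w / m) • (ν × ν).restrict D`
(mass `w`; scalars in `ℝ≥0∞`), `θ = (1/2) • (π.map fst + π.map snd)`, so `θ univ = w`.  `θ ≤ ν`: `(π.map fst) s = (w/m) (ν × ν)(D ∩ (s × univ)) ≤ ν s`
(`w / m ≤ 1`, `Measure.prod_prod`), the same for `snd`.  `ρ = ν - θ` (`Measure.sub_apply`, `Measure.sub_add_cancel_of_le`: `ρ + θ = ν`), mass `1 - w`.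
`lam = π.map Sum.inl + ρ.map Sum.inr`: a probability measure; `lam {isLeft} = π univ = w` (the maps are measurable:
`measurable_inl`, `measurable_inr`).  `lam.map (sel · true) = π.map fst + ρ`, `lam.map (sel · false) = π.map snd + ρ`; half of the sum of the
two is `θ + ρ = ν`.  A.e. statements: `π`-almost every `p` is in `D`.  Bound: `ν {y | B < |y|} = 0` and the last identity give
`lam {c | B < |sel c t|} = 0` for both `t`.
-/

namespace Pool.Agent.Helper59.RG

open MeasureTheory
open scoped ENNReal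

theorem dec (ν : Measure ℝ) [IsProbabilityMeasure ν] (x ε w : ℝ) (hw0 : 0 ≤ w) (hw1 : w ≤ 1)
    (h : w ≤ (ν.prod ν).real {p : ℝ × ℝ | |p.1 - p.2 - x| ≤ ε}) (B : ℝ)
    (hB : ∀ᵐ y ∂ν, |y| ≤ B) :
    ∃ lam : Measure DE, IsProbabilityMeasure lam ∧ lam.real {c | c.isLeft = true} = w ∧
      (∀ᵐ c ∂lam, (∀ p, c = Sum.inl p → |p.1 - p.2 - x| ≤ ε) ∧ ∀ t, |sel c t| ≤ B) ∧
      ν = (1 / 2 : ℝ≥0∞) • lam.map (fun c => sel c true) +
        (1 / 2 : ℝ≥0∞) • lam.map (fun c => sel c false) := by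
  classical
  obtain ⟨D, hD⟩ : ∃ D : Set (ℝ × ℝ), D = {p : ℝ × ℝ | |p.1 - p.2 - x| ≤ ε} := ⟨_, rfl⟩
  have hDm : MeasurableSet D := by
    rw [hD]
    exact measurableSet_le (by fun_prop) measurable_const
  rw [← hD] at h
  obtain ⟨m, hm⟩ : ∃ m : ℝ≥0∞, m = (ν.prod ν) D := ⟨_, rfl⟩
  have hmt : m ≠ ⊤ := by rw [hm]; exact measure_ne_top _ _
  have hwm : ENNReal.ofReal w ≤ m := by
    rw [hm]
    exact ENNReal.ofReal_le_of_le_toReal h
  obtain ⟨c, hc⟩ : ∃ c : ℝ≥0∞, c = ENNReal.ofReal w / m := ⟨_, rfl⟩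
  have hc1 : c ≤ 1 := by
    rw [hc]
    exact ENNReal.div_le_of_le_mul (by rwa [one_mul])
  have hcm : c * m = ENNReal.ofReal w := by
    rcases eq_or_ne m 0 with h0 | h0
    · rw [h0, mul_zero]
      rw [h0] at hwm
      exact (le_antisymm hwm zero_le).symm
    · rw [hc]
      exact ENNReal.div_mul_cancel h0 hmt
  obtain ⟨π, hπ⟩ : ∃ π : Measure (ℝ × ℝ), π = c • (ν.prod ν).restrict D := ⟨_, rfl⟩
  have hπu : π Set.univ = ENNReal.ofReal w := by
    rw [hπ, Measure.smul_apply, Measure.restrict_apply_univ, smul_eq_mul, ← hm, hcm]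
  have hπle : π ≤ ν.prod ν := by
    refine Measure.le_iff.2 (fun s _ => ?_)
    rw [hπ, Measure.smul_apply, smul_eq_mul]
    calc c * (ν.prod ν).restrict D s ≤ 1 * (ν.prod ν) s :=
          mul_le_mul' hc1 (Measure.restrict_apply_le _ _)
      _ = _ := one_mul _
  have hπD : ∀ᵐ p ∂π, p ∈ D := by
    rw [hπ]
    exact Measure.ae_smul_measure (ae_restrict_mem hDm) c
  have hfin : IsFiniteMeasure π := ⟨by rw [hπu]; exact ENNReal.ofReal_lt_top⟩
  obtain ⟨π1, hπ1⟩ : ∃ π1 : Measure ℝ, π1 = π.map Prod.fst := ⟨_, rfl⟩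
  obtain ⟨π2, hπ2⟩ : ∃ π2 : Measure ℝ, π2 = π.map Prod.snd := ⟨_, rfl⟩
  have h1le : π1 ≤ ν := by
    have e := Measure.map_mono hπle measurable_fst
    rw [measurePreserving_fst.map_eq] at e
    rw [hπ1]
    exact e
  have h2le : π2 ≤ ν := by
    have e := Measure.map_mono hπle measurable_snd
    rw [measurePreserving_snd.map_eq] at e
    rw [hπ2]
    exact e
  have h1u : π1 Set.univ = ENNReal.ofReal w := by
    rw [hπ1, Measure.map_apply measurable_fst MeasurableSet.univ, Set.preimage_univ, hπu]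
  have h2u : π2 Set.univ = ENNReal.ofReal w := by
    rw [hπ2, Measure.map_apply measurable_snd MeasurableSet.univ, Set.preimage_univ, hπu]
  have hhalf : ∀ κ : Measure ℝ, (1 / 2 : ℝ≥0∞) • κ + (1 / 2 : ℝ≥0∞) • κ = κ := by
    intro κ
    rw [← add_smul, ENNReal.add_halves, one_smul]
  obtain ⟨θ, hθ⟩ : ∃ θ : Measure ℝ, θ = (1 / 2 : ℝ≥0∞) • π1 + (1 / 2 : ℝ≥0∞) • π2 := ⟨_, rfl⟩
  have hθle : θ ≤ ν := by
    rw [hθ, ← hhalf ν]
    refine Measure.le_iff.2 (fun s _ => ?_)
    rw [Measure.add_apply, Measure.add_apply, Measure.smul_apply, Measure.smul_apply,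
      Measure.smul_apply, smul_eq_mul, smul_eq_mul, smul_eq_mul]
    exact add_le_add (mul_le_mul' le_rfl (h1le s)) (mul_le_mul' le_rfl (h2le s))
  have hθf : IsFiniteMeasure θ := isFiniteMeasure_of_le ν hθle
  have hθu : θ Set.univ = ENNReal.ofReal w := by
    rw [hθ, Measure.add_apply, Measure.smul_apply, Measure.smul_apply, h1u, h2u, ← add_smul,
      ENNReal.add_halves, one_smul]
  obtain ⟨ρ, hρ⟩ : ∃ ρ : Measure ℝ, ρ = ν - θ := ⟨_, rfl⟩
  have hρθ : ρ + θ = ν := by
    rw [hρ]
    exact Measure.sub_add_cancel_of_le hθle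
  have hρle : ρ ≤ ν := by
    rw [hρ]
    exact Measure.sub_le
  have hρu : ρ Set.univ + ENNReal.ofReal w = 1 := by
    rw [← hθu, ← Measure.add_apply, hρθ, measure_univ]
  have hLm : MeasurableSet {c : DE | c.isLeft = true} := by
    refine measurableSet_sum_iff.2 ⟨?_, ?_⟩
    · convert MeasurableSet.univ using 1
      ext p
      simp
    · convert MeasurableSet.empty using 1
      ext p
      simp
  have hL1 : (Sum.inl : ℝ × ℝ → DE) ⁻¹' {c : DE | c.isLeft = true} = Set.univ := by
    ext p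
    simp
  have hL2 : (Sum.inr : ℝ → DE) ⁻¹' {c : DE | c.isLeft = true} = ∅ := by
    ext p
    simp
  have hG1 : MeasurableSet {c : DE | (∀ p, c = Sum.inl p → |p.1 - p.2 - x| ≤ ε) ∧
      ∀ t, |sel c t| ≤ B} := by
    refine measurableSet_sum_iff.2 ⟨?_, ?_⟩
    · have e : (Sum.inl : ℝ × ℝ → DE) ⁻¹' {c : DE | (∀ p, c = Sum.inl p → |p.1 - p.2 - x| ≤ ε) ∧
          ∀ t, |sel c t| ≤ B} = D ∩ ({p | |p.1| ≤ B} ∩ {p | |p.2| ≤ B}) := by
        ext p
        rw [hD]
        constructor
        · rintro ⟨h1, h2⟩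
          exact ⟨h1 p rfl, by simpa [sel] using h2 true, by simpa [sel] using h2 false⟩
        · rintro ⟨h1, h2, h3⟩
          refine ⟨fun p' hp' => ?_, fun t => ?_⟩
          · cases hp'
            exact h1
          · cases t
            · simpa [sel] using h3
            · simpa [sel] using h2
      rw [e]
      exact hDm.inter ((measurableSet_le (by fun_prop) measurable_const).inter
        (measurableSet_le (by fun_prop) measurable_const))
    · have e : (Sum.inr : ℝ → DE) ⁻¹' {c : DE | (∀ p, c = Sum.inl p → |p.1 - p.2 - x| ≤ ε) ∧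
          ∀ t, |sel c t| ≤ B} = {y | |y| ≤ B} := by
        ext y
        constructor
        · rintro ⟨_, h2⟩
          simpa [sel] using h2 true
        · intro h2
          refine ⟨fun p' hp' => ?_, fun t => ?_⟩
          · cases hp'
          · simpa [sel] using h2
      rw [e]
      exact measurableSet_le (by fun_prop) measurable_const
  have hfst : ∀ᵐ p ∂π, |p.1| ≤ B :=
    (Measure.absolutelyContinuous_of_le hπle).ae_le
      ((measurePreserving_fst (μ := ν) (ν := ν)).quasiMeasurePreserving.ae hB)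
  have hsnd : ∀ᵐ p ∂π, |p.2| ≤ B :=
    (Measure.absolutelyContinuous_of_le hπle).ae_le
      ((measurePreserving_snd (μ := ν) (ν := ν)).quasiMeasurePreserving.ae hB)
  have hρB : ∀ᵐ y ∂ρ, |y| ≤ B := (Measure.absolutelyContinuous_of_le hρle).ae_le hB
  have hsel1 : ∀ t : Bool, (fun c : DE => sel c t) ∘ (Sum.inr : ℝ → DE) = id := by
    intro t
    funext y
    simp [sel]
  have hselT : (fun c : DE => sel c true) ∘ (Sum.inl : ℝ × ℝ → DE) = Prod.fst := by
    funext y
    simp [sel]
  have hselF : (fun c : DE => sel c false) ∘ (Sum.inl : ℝ × ℝ → DE) = Prod.snd := by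
    funext y
    simp [sel]
  refine ⟨π.map Sum.inl + ρ.map Sum.inr, ⟨?_⟩, ?_, ?_, ?_⟩
  · rw [Measure.add_apply, Measure.map_apply measurable_inl MeasurableSet.univ,
      Measure.map_apply measurable_inr MeasurableSet.univ, Set.preimage_univ, Set.preimage_univ,
      hπu, add_comm]
    exact hρu
  · rw [Measure.real, Measure.add_apply, Measure.map_apply measurable_inl hLm,
      Measure.map_apply measurable_inr hLm, hL1, hL2, measure_empty, add_zero, hπu,
      ENNReal.toReal_ofReal hw0]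
  · rw [ae_add_measure_iff]
    constructor
    · refine (ae_map_iff measurable_inl.aemeasurable hG1).2 ?_
      filter_upwards [hπD, hfst, hsnd] with p h1 h2 h3
      rw [hD] at h1
      refine ⟨fun p' hp' => ?_, fun t => ?_⟩
      · cases hp'
        exact h1
      · cases t
        · simpa [sel] using h3
        · simpa [sel] using h2
    · refine (ae_map_iff measurable_inr.aemeasurable hG1).2 ?_
      filter_upwards [hρB] with y h2
      refine ⟨fun p' hp' => ?_, fun t => ?_⟩
      · cases hp'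
      · simpa [sel] using h2
  · rw [Measure.map_add _ _ (measurable_sel true), Measure.map_add _ _ (measurable_sel false),
      Measure.map_map (measurable_sel true) measurable_inl,
      Measure.map_map (measurable_sel true) measurable_inr,
      Measure.map_map (measurable_sel false) measurable_inl,
      Measure.map_map (measurable_sel false) measurable_inr, hsel1, hsel1, hselT, hselF,
      Measure.map_id, ← hπ1, ← hπ2, smul_add, smul_add]
    calc ν = ρ + θ := hρθ.symm
      _ = ((1 / 2 : ℝ≥0∞) • ρ + (1 / 2 : ℝ≥0∞) • ρ) + θ := by rw [hhalf]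
      _ = _ := by rw [hθ]; abel

end Pool.Agent.Helper59.RG
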