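import Pool.Agent.Helper59.RG.Defs

/-!
# Block RG-GOODA: the average over the set of fair digits

PROOF.  This is the last part of the proof of `corrW` in `RF/CorrW.lean` (copy it, with the two private lemmas `corrW_av_sum`, `corrW_bad`), with
`gam t0 s d Q` replaced by an arbitrary `γ ≥ 0`; it uses `avg` (`RF/SecMom.lean` or `RF/Split.lean`) and `secmom`.
-/

namespace Pool.Agent.Helper59.RG

open Finset
open Pool.Agent.Helper59.RE (av)
open Pool.Agent.Helper59.RF (WS)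

private lemma gooda_av_sum38 {ι : Type*} (p : ℕ → ℝ) (S : Finset ℕ) (s : Finset ι)
    (F : ι → Finset ℕ → ℝ) : av p S (fun U => ∑ i ∈ s, F i U) = ∑ i ∈ s, av p S (F i) := by
  unfold av
  rw [Finset.sum_comm]
  refine Finset.sum_congr rfl fun T _ => ?_
  rw [Finset.smul_sum]

open Classical in
private lemma gooda_bad38 {N : ℕ → ℝ} {δ Z t0 : ℝ} {s d Q L : ℕ} (hδ0 : 0 < δ) (hδ1 : δ ≤ 1 / 4)
    (hs : 2 ≤ s) (hd : 2 ≤ d) (hdδ : 2 ≤ δ * d) (w : WS N δ Z t0 s d Q L) (ν : ℕ → ℝ)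
    (hν0 : ∀ k, 0 ≤ ν k) (hν1 : ∀ k, ν k ≤ 1)
    (hν : ∀ k : ℕ, (s : ℝ) ^ (1 - δ / 4) ≤ k → k ≤ s → ν k = (s : ℝ) ^ (-1 + δ))
    (S : Finset ℕ) (i : ℕ) (hi : i < L) (hS : ∀ j l, w.W i j l ⊆ S) :
    av ν S (fun U => if w.Good U i then (0 : ℝ) else 1) ≤
      Q * ((s : ℝ) ^ (δ / 8) * (2 ^ (d + 1) * (s : ℝ) ^ (-(2 / 3 * δ)) + (s : ℝ) ^ (-δ))) := by
  set t : ℝ := (s : ℝ) ^ (-1 + δ) with ht
  have hs1 : (1 : ℝ) < s := by exact_mod_cast (by omega : 1 < s)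
  have hs0 : (0 : ℝ) < s := by linarith
  have ht0 : 0 < t := Real.rpow_pos_of_pos hs0 _
  have ht1 : t ≤ 1 := Real.rpow_le_one_of_one_le_of_nonpos hs1.le (by linarith)
  set u : ℝ := w.u i with hu
  have hu1 : (s : ℝ) ^ (1 - δ / 3) ≤ u := w.u_ge i hi
  have hu0 : 0 < u := lt_of_lt_of_le (Real.rpow_pos_of_pos hs0 _) hu1
  have hut : (s : ℝ) ^ (2 / 3 * δ) ≤ u * t := by
    calc (s : ℝ) ^ (2 / 3 * δ) = (s : ℝ) ^ (1 - δ / 3) * (s : ℝ) ^ (-1 + δ) := by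
          rw [← Real.rpow_add hs0]
          congr 1
          ring
      _ ≤ u * t := mul_le_mul_of_nonneg_right hu1 ht0.le
  have hA1 : (1 : ℝ) ≤ (s : ℝ) ^ (2 / 3 * δ) := Real.one_le_rpow hs1.le (by positivity)
  have hut1 : 1 ≤ u * t := hA1.trans hut
  have hut0 : 0 < u * t := by linarith
  have hpt : ∀ U : Finset ℕ, (if w.Good U i then (0 : ℝ) else 1) ≤
      ∑ j : Fin Q, (if ∃ τ ∈ w.TT i j, ∀ l, τ l ∈ U then (0 : ℝ) else 1) := by
    intro U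
    have hnn : ∀ j : Fin Q, (0 : ℝ) ≤ (if ∃ τ ∈ w.TT i j, ∀ l, τ l ∈ U then (0 : ℝ) else 1) := by
      intro j
      split_ifs <;> norm_num
    by_cases h : w.Good U i
    · rw [if_pos h]
      exact Finset.sum_nonneg fun j _ => hnn j
    · rw [if_neg h]
      unfold WS.Good at h
      obtain ⟨j, hj⟩ := not_forall.1 h
      calc (1 : ℝ) = (if ∃ τ ∈ w.TT i j, ∀ l, τ l ∈ U then (0 : ℝ) else 1) := by rw [if_neg hj]
        _ ≤ _ := Finset.single_le_sum (f := fun j : Fin Q =>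
          (if ∃ τ ∈ w.TT i j, ∀ l, τ l ∈ U then (0 : ℝ) else 1)) (fun j _ => hnn j)
          (Finset.mem_univ j)
  refine (Pool.Agent.Helper59.RE.av_mono ν hν0 hν1 S _ _ fun U _ => hpt U).trans ?_
  rw [gooda_av_sum38]
  have hj : ∀ j ∈ (univ : Finset (Fin Q)),
      av ν S (fun U => if ∃ τ ∈ w.TT i j, ∀ l, τ l ∈ U then (0 : ℝ) else 1) ≤
      (s : ℝ) ^ (δ / 8) * (2 ^ (d + 1) * (s : ℝ) ^ (-(2 / 3 * δ)) + (s : ℝ) ^ (-δ)) := by
    intro j _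
    have hcg := w.card_ge i hi j
    rw [← hu] at hcg
    have hud : 0 < u ^ d := pow_pos hu0 d
    have hsd : 0 < (s : ℝ) ^ (δ / 8) := Real.rpow_pos_of_pos hs0 _
    have hc0 : 0 < ((w.TT i j).card : ℝ) := by
      by_contra hcon
      have h0 : ((w.TT i j).card : ℝ) ≤ 0 := not_lt.1 hcon
      have h1 : (s : ℝ) ^ (δ / 8) * ((w.TT i j).card : ℝ) ≤ 0 :=
        mul_nonpos_of_nonneg_of_nonpos hsd.le h0
      linarith
    have hne : (w.TT i j).Nonempty := Finset.card_pos.1 (by exact_mod_cast hc0)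
    have h1 := Pool.Agent.Helper59.RF.secmom ν t ht0 ht1 hν0 hν1 (d + 1) (by omega) S (fun l => w.W i j l)
      (fun l l' hll => w.disj i hi i hi j j l l' (Or.inr (Or.inr hll))) (fun l => hS j l)
      (fun l k hk => hν k (w.range i hi j l k hk).1 (w.range i hi j l k hk).2) (w.TT i j) hne
      (fun τ hτ l => w.mem i hi j τ hτ l)
      (fun τ hτ τ' hτ' l h => w.inj i hi j τ hτ τ' hτ' l h)
      u (fun l => w.card_le i hi j l) hut1
    refine h1.trans ?_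
    rw [Nat.add_sub_cancel]
    refine mul_le_mul ?_ (add_le_add ?_ ?_) (by positivity) hsd.le
    · rw [div_le_iff₀ hc0]
      exact hcg
    · rw [div_eq_mul_inv]
      refine mul_le_mul_of_nonneg_left ?_ (by positivity)
      rw [Real.rpow_neg hs0.le]
      exact inv_anti₀ (Real.rpow_pos_of_pos hs0 _) hut
    · have h2 : u / (u * t) ^ (d + 1) = t⁻¹ * ((u * t) ^ d)⁻¹ := by
        rw [pow_succ]
        field_simp
      have h3 : t⁻¹ = (s : ℝ) ^ (1 - δ) := by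
        rw [ht, ← Real.rpow_neg hs0.le]
        congr 1
        ring
      have h4 : ((u * t) ^ d)⁻¹ ≤ (s : ℝ) ^ (-(2 / 3 * δ * d)) := by
        rw [Real.rpow_neg hs0.le]
        apply inv_anti₀ (Real.rpow_pos_of_pos hs0 _)
        calc (s : ℝ) ^ (2 / 3 * δ * d) = ((s : ℝ) ^ (2 / 3 * δ)) ^ d := by
              rw [← Real.rpow_natCast, ← Real.rpow_mul hs0.le]
          _ ≤ (u * t) ^ d := pow_le_pow_left₀ (by positivity) hut d
      rw [h2]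
      calc t⁻¹ * ((u * t) ^ d)⁻¹ ≤ (s : ℝ) ^ (1 - δ) * (s : ℝ) ^ (-(2 / 3 * δ * d)) := by
            rw [h3]
            exact mul_le_mul_of_nonneg_left h4 (by positivity)
        _ = (s : ℝ) ^ (1 - δ + -(2 / 3 * δ * d)) := (Real.rpow_add hs0 _ _).symm
        _ ≤ (s : ℝ) ^ (-δ) := Real.rpow_le_rpow_of_exponent_le hs1.le (by linarith)
  refine (Finset.sum_le_sum hj).trans (le_of_eq ?_)
  rw [Finset.sum_const, Finset.card_univ, Fintype.card_fin, nsmul_eq_mul]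

open Classical in
theorem good_avg {N : ℕ → ℝ} {δ Z t0 : ℝ} {s d Q L : ℕ} (hδ0 : 0 < δ) (hδ1 : δ ≤ 1 / 4)
    (hs : 2 ≤ s) (hd : 2 ≤ d) (hdδ : 2 ≤ δ * d) (w : WS N δ Z t0 s d Q L) (ν : ℕ → ℝ)
    (hν0 : ∀ k, 0 ≤ ν k) (hν1 : ∀ k, ν k ≤ 1)
    (hν : ∀ k : ℕ, (s : ℝ) ^ (1 - δ / 4) ≤ k → k ≤ s → ν k = (s : ℝ) ^ (-1 + δ))
    (S : Finset ℕ) (hS : ∀ i < L, ∀ j l, w.W i j l ⊆ S) (γ : ℝ) (hγ : 0 ≤ γ) :
    av ν S (fun U => ∏ i ∈ range L, if w.Good U i then γ else 1) ≤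
      (γ + Q * ((s : ℝ) ^ (δ / 8) *
        (2 ^ (d + 1) * (s : ℝ) ^ (-(2 / 3 * δ)) + (s : ℝ) ^ (-δ)))) ^ L := by
  classical
  refine Pool.Agent.Helper59.RF.avg ν hν0 hν1 S L
    (fun i => univ.biUnion fun q : Fin Q × Fin (d + 1) => w.W i q.1 q.2) ?_ ?_
    (fun i U => w.Good U i) ?_ _ _ hγ ?_
  · intro i hi i' hi' hne
    rw [Finset.disjoint_biUnion_left]
    intro q _
    rw [Finset.disjoint_biUnion_right]
    intro q' _
    exact w.disj i hi i' hi' q.1 q'.1 q.2 q'.2 (Or.inl hne)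
  · intro i hi
    rw [Finset.biUnion_subset]
    intro q _
    exact hS i hi q.1 q.2
  · intro i hi U
    unfold WS.Good
    refine forall_congr' fun j => ?_
    constructor
    · rintro ⟨τ, hτ, h⟩
      exact ⟨τ, hτ, fun l => (Finset.mem_inter.1 (h l)).1⟩
    · rintro ⟨τ, hτ, h⟩
      refine ⟨τ, hτ, fun l => Finset.mem_inter.2 ⟨h l, ?_⟩⟩
      rw [Finset.mem_biUnion]
      exact ⟨(j, l), Finset.mem_univ _, w.mem i hi j τ hτ l⟩
  · intro i hi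
    exact gooda_bad38 hδ0 hδ1 hs hd hdδ w ν hν0 hν1 hν S i hi (fun j l => hS i hi j l)

end Pool.Agent.Helper59.RG
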