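import Pool.Agent.Helper59.RG.Defs0

/-!
# Block RG-LAWU: the law of the set of fair digits

PROOF.  `lawU`: `fs S c` depends on the events `isLeft (c k)`, `k ∈ S`: `∫ H (fs S c) = ∑_(T ⊆ S) H T * P (fs S c = T)` and
`P (fs S c = T) = ∏_(k ∈ T) w k ∏_(k ∈ S \ T) (1 - w k)` by `Measure.infinitePi_pi` for the box `{isLeft}` (`k ∈ T`), `{not isLeft}` (`k ∈ S \ T`).
-/

namespace Pool.Agent.Helper59.RG

open Finset MeasureTheory
open Pool.Agent.Helper59.RE (av)
open Pool.Agent.Helper59.RF (hf)
open scoped ENNReal

private theorem measL : MeasurableSet {c : DE | c.isLeft = true} := by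
  have h : {c : DE | c.isLeft = true} = Set.range (Sum.inl : ℝ × ℝ → DE) := by
    ext c
    cases c <;> simp
  rw [h]
  exact measurableSet_range_inl

open Classical in
private theorem fs_eq (S T : Finset ℕ) (hT : T ⊆ S) :
    {c : ℕ → DE | fs S c = T} =
      Set.pi (S : Set ℕ) (fun k => if k ∈ T then {c : DE | c.isLeft = true} else {c : DE | c.isLeft = true}ᶜ) := by
  ext c
  simp only [Set.mem_setOf_eq, Set.mem_pi, Finset.mem_coe]
  constructor
  · rintro h k hk
    by_cases hkT : k ∈ T
    · rw [if_pos hkT]
      rw [← h] at hkT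
      exact (Finset.mem_filter.1 hkT).2
    · rw [if_neg hkT]
      intro hc
      apply hkT
      rw [← h]
      exact Finset.mem_filter.2 ⟨hk, hc⟩
  · intro h
    ext k
    unfold fs
    rw [Finset.mem_filter]
    constructor
    · rintro ⟨hk, hc⟩
      by_contra hkT
      have h1 := h k hk
      rw [if_neg hkT] at h1
      exact h1 hc
    · intro hkT
      have h1 := h k (hT hkT)
      rw [if_pos hkT] at h1
      exact ⟨hT hkT, h1⟩

open Classical in
private theorem measPi (S T : Finset ℕ) :
    MeasurableSet (Set.pi (S : Set ℕ)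
      (fun k => if k ∈ T then {c : DE | c.isLeft = true} else {c : DE | c.isLeft = true}ᶜ)) := by
  refine MeasurableSet.pi S.countable_toSet fun k _ => ?_
  split_ifs
  · exact measL
  · exact measL.compl

private theorem law_fs (lam : ℕ → Measure DE) [∀ k, IsProbabilityMeasure (lam k)] (S T : Finset ℕ) (hT : T ⊆ S) :
    (Measure.infinitePi lam).real {c | fs S c = T} =
      Pool.Agent.Helper59.RE.wt (fun k => (lam k).real {c | c.isLeft = true}) S T := by
  classical
  rw [fs_eq S T hT, measureReal_def, Measure.infinitePi_pi _ (fun k _ => by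
    split_ifs
    · exact measL
    · exact measL.compl), ENNReal.toReal_prod]
  unfold Pool.Agent.Helper59.RE.wt
  rw [← Finset.prod_sdiff hT, mul_comm]
  congr 1
  · refine Finset.prod_congr rfl fun k hk => ?_
    rw [if_pos hk]
    rfl
  · refine Finset.prod_congr rfl fun k hk => ?_
    rw [if_neg (Finset.mem_sdiff.1 hk).2]
    have h1 := probReal_compl_eq_one_sub (μ := lam k) measL
    exact h1

theorem lawU (lam : ℕ → Measure DE) [∀ k, IsProbabilityMeasure (lam k)] (S : Finset ℕ)
    (H : Finset ℕ → ℝ) :
    ∫ c, H (fs S c) ∂(Measure.infinitePi lam) =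
      av (fun k => (lam k).real {c | c.isLeft = true}) S H := by
  classical
  have h1 : ∀ c : ℕ → DE, H (fs S c) =
      ∑ T ∈ S.powerset, Set.indicator {c | fs S c = T} (fun _ => H T) c := by
    intro c
    rw [Finset.sum_eq_single (fs S c)]
    · rw [Set.indicator_of_mem]
      rfl
    · intro T _ hT
      rw [Set.indicator_of_notMem]
      exact fun h => hT h.symm
    · intro h
      exact absurd (Finset.mem_powerset.2 (Finset.filter_subset _ _)) h
  have hm : ∀ T ∈ S.powerset, MeasurableSet {c : ℕ → DE | fs S c = T} := by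
    intro T hT
    rw [fs_eq S T (Finset.mem_powerset.1 hT)]
    exact measPi S T
  simp_rw [h1]
  rw [integral_finset_sum]
  · unfold av
    refine Finset.sum_congr rfl fun T hT => ?_
    rw [integral_indicator_const _ (hm T hT), law_fs lam S T (Finset.mem_powerset.1 hT)]
  · intro T hT
    exact (integrable_const _).indicator (hm T hT)

end Pool.Agent.Helper59.RG
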