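import Pool.Agent.Helper59.RG.Defs0

/-!
# Block RG-MIX: the first digits and the others are independent

PROOF.  `mix`: the map `(y, z) ↦ (k ↦ if k < q then y k else z k)` from `infinitePi ν × infinitePi ν` has the law `infinitePi ν`: `Measure.eq_infinitePi`,
the preimage of a box is a product of two boxes (`Measure.prod_prod`, `Measure.infinitePi_pi` with the finite sets `s.filter (· < q)`,
`s.filter (q ≤ ·)`; `Finset.prod_filter_mul_prod_filter_not`); then `integral_map` and `integral_prod` (`F` bounded, measurable).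
-/

namespace Pool.Agent.Helper59.RG

open Finset MeasureTheory
open Pool.Agent.Helper59.RE (av)
open Pool.Agent.Helper59.RF (hf)
open scoped ENNReal

private theorem measMix56 (q : ℕ) :
    Measurable (fun p : (ℕ → ℝ) × (ℕ → ℝ) => (fun k : ℕ => if k < q then p.1 k else p.2 k)) := by
  refine measurable_pi_lambda _ (fun k => ?_)
  by_cases hk : k < q
  · simp only [hk, if_true]
    exact (measurable_pi_apply k).comp measurable_fst
  · simp only [hk, if_false]
    exact (measurable_pi_apply k).comp measurable_snd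

private theorem mapMix56 (ν : ℕ → Measure ℝ) [∀ k, IsProbabilityMeasure (ν k)] (q : ℕ) :
    ((Measure.infinitePi ν).prod (Measure.infinitePi ν)).map
      (fun p : (ℕ → ℝ) × (ℕ → ℝ) => (fun k : ℕ => if k < q then p.1 k else p.2 k)) =
      Measure.infinitePi ν := by
  refine Measure.eq_infinitePi ν (fun s t ht => ?_)
  rw [Measure.map_apply (measMix56 q)
    (MeasurableSet.pi (Finset.countable_toSet s) (fun i _ => ht i))]
  have hpre : (fun p : (ℕ → ℝ) × (ℕ → ℝ) => (fun k : ℕ => if k < q then p.1 k else p.2 k)) ⁻¹'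
      (Set.pi (s : Set ℕ) t) =
      (Set.pi ((s.filter (fun k => k < q) : Finset ℕ) : Set ℕ) t) ×ˢ
        (Set.pi ((s.filter (fun k => ¬ k < q) : Finset ℕ) : Set ℕ) t) := by
    ext p
    constructor
    · intro h
      refine ⟨fun k hk => ?_, fun k hk => ?_⟩
      · have hk' := Finset.mem_filter.1 (Finset.mem_coe.1 hk)
        have h1 := h k (Finset.mem_coe.2 hk'.1)
        simpa only [hk'.2, if_true] using h1
      · have hk' := Finset.mem_filter.1 (Finset.mem_coe.1 hk)
        have h1 := h k (Finset.mem_coe.2 hk'.1)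
        simpa only [hk'.2, if_false] using h1
    · rintro ⟨h1, h2⟩ k hk
      by_cases hq : k < q
      · have h3 := h1 k (Finset.mem_coe.2 (Finset.mem_filter.2 ⟨Finset.mem_coe.1 hk, hq⟩))
        simpa only [hq, if_true] using h3
      · have h3 := h2 k (Finset.mem_coe.2 (Finset.mem_filter.2 ⟨Finset.mem_coe.1 hk, hq⟩))
        simpa only [hq, if_false] using h3
  rw [hpre, Measure.prod_prod, Measure.infinitePi_pi ν (fun i _ => ht i),
    Measure.infinitePi_pi ν (fun i _ => ht i), Finset.prod_filter_mul_prod_filter_not]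

theorem mix (ν : ℕ → Measure ℝ) [∀ k, IsProbabilityMeasure (ν k)] (q : ℕ)
    (F : (ℕ → ℝ) → ℂ) (hF : Measurable F) (C : ℝ) (hb : ∀ y, ‖F y‖ ≤ C) :
    ∫ y, F y ∂(Measure.infinitePi ν) =
      ∫ y, ∫ z, F (fun k => if k < q then y k else z k) ∂(Measure.infinitePi ν)
        ∂(Measure.infinitePi ν) := by
  have h1 : ∫ y, F y ∂(Measure.infinitePi ν) =
      ∫ p, F ((fun p : (ℕ → ℝ) × (ℕ → ℝ) => (fun k : ℕ => if k < q then p.1 k else p.2 k)) p)
        ∂((Measure.infinitePi ν).prod (Measure.infinitePi ν)) := by
    rw [← integral_map (measMix56 q).aemeasurable hF.aestronglyMeasurable, mapMix56]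
  rw [h1]
  refine integral_prod _ ?_
  refine Integrable.of_bound (hF.comp (measMix56 q)).aestronglyMeasurable C ?_
  exact Filter.Eventually.of_forall (fun p => hb _)

end Pool.Agent.Helper59.RG
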