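import Pool.Agent.Helper59.RG.Defs0

/-!
# Block RG-PRD: the law of all digits

PROOF.  `prd`: Let `R T : (ℕ → DE) → (ℕ → ℝ)`, `R T c k = sel (c k) (decide (k ∈ T))` (measurable: `measurable_pi_lambda`, `measurable_sel`).  Put
`ρ = ∑_(T ⊆ S) (1/2)^|S| • (infinitePi lam).map (R T)`.  Then `ρ = infinitePi ν` by `Measure.eq_infinitePi`: for a finite set `s` of indices and
measurable `t k`: `(infinitePi lam).map (R T) (box) = ∏_(k ∈ s) lam k {c | sel c (k ∈ T) ∈ t k}` (`Measure.infinitePi_pi`), and
`∑_(T ⊆ S) (1/2)^|S| ∏_(k ∈ s) a_k (k ∈ T) = ∏_(k ∈ s) (1/2 a_k true + 1/2 a_k false) = ∏_(k ∈ s) ν k (t k)`: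
replace `s` by `s ∪ S` (`t k = univ` for the new `k`: `a_k = 1`), for `k ∉ S` `a_k true = a_k false` (`hS`: a.e. `c` is not `inl`, then `sel c t`
does not depend on `t`), and for the `k ∈ S` expand the product (`Finset.prod_add`, with `∏_(k∈T) (1/2 a_k true) ∏_(k ∈ S \ T) (1/2 a_k false)`).
Then `∫ F d ρ = ∑_T (1/2)^|S| ∫ F (R T c) d(infinitePi lam)` (`integral_finset_sum_measure`, `integral_smul_measure`, `integral_map`), and this is the
integral of `av hf S (..)` (`wt hf S T = (1/2)^|S|`; `integral_finset_sum`, all functions bounded and measurable, so integrable).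
-/

namespace Pool.Agent.Helper59.RG

open Finset MeasureTheory
open Pool.Agent.Helper59.RE (av)
open Pool.Agent.Helper59.RF (hf)
open scoped ENNReal

private theorem infPi_sum32 (ν : ℕ → Measure ℝ) [∀ k, IsProbabilityMeasure (ν k)]
    (lam : ℕ → Measure DE) [∀ k, IsProbabilityMeasure (lam k)] (S : Finset ℕ)
    (hS : ∀ k, k ∉ S → (lam k).real {c | c.isLeft = true} = 0)
    (hν : ∀ k, ν k = (1 / 2 : ℝ≥0∞) • (lam k).map (fun c => sel c true) +
        (1 / 2 : ℝ≥0∞) • (lam k).map (fun c => sel c false)) :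
    Measure.infinitePi ν = ∑ T ∈ S.powerset, ((1 / 2 : ℝ≥0∞) ^ S.card) •
      (Measure.infinitePi lam).map (fun (c : ℕ → DE) (k : ℕ) => sel (c k) (decide (k ∈ T))) := by
  classical
  symm
  apply Measure.eq_infinitePi
  intro s t ht
  obtain ⟨t', ht'⟩ : ∃ t' : ℕ → Set ℝ, t' = fun k => if k ∈ s then t k else Set.univ := ⟨_, rfl⟩
  have htm : ∀ k, MeasurableSet (t' k) := by
    intro k
    rw [ht']
    by_cases hk : k ∈ s
    · simp only [if_pos hk]
      exact ht k
    · simp only [if_neg hk]
      exact MeasurableSet.univ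
  have hpi : Set.pi (s : Set ℕ) t = Set.pi ((s ∪ S : Finset ℕ) : Set ℕ) t' := by
    ext y
    rw [Set.mem_pi, Set.mem_pi]
    constructor
    · intro h k _
      rw [ht']
      by_cases hk : k ∈ s
      · simp only [if_pos hk]
        exact h k hk
      · simp only [if_neg hk]
        exact Set.mem_univ _
    · intro h k hk
      have hk' : k ∈ s := hk
      have h1 := h k (Finset.mem_coe.mpr (Finset.mem_union_left _ hk'))
      rw [ht'] at h1
      simp only [if_pos hk'] at h1
      exact h1
  obtain ⟨a, ha⟩ : ∃ a : ℕ → Bool → ℝ≥0∞, a = fun k b => lam k ((fun c => sel c b) ⁻¹' t' k) :=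
    ⟨_, rfl⟩
  -- the measure of a box
  have hbox : ∀ T ∈ S.powerset, (Measure.infinitePi lam).map
      (fun (c : ℕ → DE) (k : ℕ) => sel (c k) (decide (k ∈ T))) (Set.pi (s : Set ℕ) t) =
      ∏ k ∈ s ∪ S, a k (decide (k ∈ T)) := by
    intro T _
    have hRm : Measurable (fun (c : ℕ → DE) (k : ℕ) => sel (c k) (decide (k ∈ T))) :=
      measurable_pi_lambda _ fun k => (measurable_sel _).comp (measurable_pi_apply k)
    rw [Measure.map_apply hRm
      (MeasurableSet.pi (Finset.countable_toSet s) fun k _ => ht k), hpi]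
    have h1 : (fun (c : ℕ → DE) (k : ℕ) => sel (c k) (decide (k ∈ T))) ⁻¹'
        (Set.pi ((s ∪ S : Finset ℕ) : Set ℕ) t') = Set.pi ((s ∪ S : Finset ℕ) : Set ℕ)
          (fun k => (fun c => sel c (decide (k ∈ T))) ⁻¹' t' k) := rfl
    rw [h1, Measure.infinitePi_pi _ (fun k _ => measurable_sel _ (htm k)), ha]
  have hνa : ∀ k, ν k (t' k) = 1 / 2 * a k true + 1 / 2 * a k false := by
    intro k
    rw [hν k, Measure.add_apply, Measure.smul_apply, Measure.smul_apply,
      Measure.map_apply (measurable_sel _) (htm k), Measure.map_apply (measurable_sel _) (htm k),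
      smul_eq_mul, smul_eq_mul, ha]
  have heq : ∀ k, k ∉ S → a k true = a k false := by
    intro k hk
    rw [ha]
    apply measure_congr
    have h1 : lam k {c | c.isLeft = true} = 0 := by
      have := hS k hk
      rwa [measureReal_eq_zero_iff] at this
    have h2 : ∀ᵐ c ∂(lam k), ¬ c.isLeft = true := by
      rw [ae_iff]
      simpa using h1
    filter_upwards [h2] with c hc
    change (sel c true ∈ t' k) = (sel c false ∈ t' k)
    cases c with
    | inl p => simp at hc
    | inr z => rfl
  have hhalf : ∀ x : ℝ≥0∞, 1 / 2 * x + 1 / 2 * x = x := by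
    intro x
    rw [← add_mul, ENNReal.add_halves, one_mul]
  have hνS : ∀ k, k ∉ S → ν k (t' k) = a k false := by
    intro k hk
    rw [hνa, heq k hk, hhalf]
  have hsum : ∑ T ∈ S.powerset, (1 / 2 : ℝ≥0∞) ^ S.card * ∏ k ∈ s ∪ S, a k (decide (k ∈ T)) =
      ∏ k ∈ s ∪ S, ν k (t' k) := by
    have h1 : s ∪ S = S ∪ (s \ S) := by
      rw [Finset.union_sdiff_self_eq_union, Finset.union_comm]
    rw [h1, Finset.prod_union Finset.disjoint_sdiff]
    have h2 : ∀ T ∈ S.powerset, (1 / 2 : ℝ≥0∞) ^ S.card *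
        ∏ k ∈ S ∪ (s \ S), a k (decide (k ∈ T)) =
        ((∏ k ∈ T, 1 / 2 * a k true) * ∏ k ∈ S \ T, 1 / 2 * a k false) *
          ∏ k ∈ s \ S, ν k (t' k) := by
      intro T hT
      rw [Finset.mem_powerset] at hT
      rw [Finset.prod_union Finset.disjoint_sdiff, ← mul_assoc]
      congr 1
      · rw [← Finset.prod_sdiff hT, Finset.prod_mul_distrib, Finset.prod_mul_distrib,
          Finset.prod_const, Finset.prod_const]
        have h3 : ∏ k ∈ S \ T, a k (decide (k ∈ T)) = ∏ k ∈ S \ T, a k false := by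
          refine Finset.prod_congr rfl fun k hk => ?_
          rw [decide_eq_false (Finset.mem_sdiff.mp hk).2]
        have h4 : ∏ k ∈ T, a k (decide (k ∈ T)) = ∏ k ∈ T, a k true := by
          refine Finset.prod_congr rfl fun k hk => ?_
          rw [decide_eq_true hk]
        have h5 : (1 / 2 : ℝ≥0∞) ^ S.card = (1 / 2) ^ T.card * (1 / 2) ^ (S \ T).card := by
          rw [← pow_add, ← Finset.card_sdiff_add_card_eq_card hT, add_comm]
        rw [h3, h4, h5]
        ring
      · refine Finset.prod_congr rfl fun k hk => ?_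
        have hk' := (Finset.mem_sdiff.mp hk).2
        rw [decide_eq_false (fun h => hk' (hT h)), hνS k hk']
    rw [Finset.sum_congr rfl h2, ← Finset.sum_mul, ← Finset.prod_add]
    congr 1
    exact Finset.prod_congr rfl fun k _ => (hνa k).symm
  rw [Measure.finsetSum_apply]
  simp only [Measure.smul_apply, smul_eq_mul]
  rw [Finset.sum_congr rfl fun T hT => by rw [hbox T hT], hsum]
  have h6 : ∏ k ∈ s ∪ S, ν k (t' k) = ∏ k ∈ s, ν k (t' k) := by
    symm
    apply Finset.prod_subset Finset.subset_union_left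
    intro k _ hk
    rw [ht']
    simp only [if_neg hk]
    exact measure_univ
  rw [h6]
  refine Finset.prod_congr rfl fun k hk => ?_
  rw [ht']
  simp only [if_pos hk]

theorem prd (ν : ℕ → Measure ℝ) [∀ k, IsProbabilityMeasure (ν k)] (lam : ℕ → Measure DE)
    [∀ k, IsProbabilityMeasure (lam k)] (S : Finset ℕ)
    (hS : ∀ k, k ∉ S → (lam k).real {c | c.isLeft = true} = 0)
    (hν : ∀ k, ν k = (1 / 2 : ℝ≥0∞) • (lam k).map (fun c => sel c true) +
        (1 / 2 : ℝ≥0∞) • (lam k).map (fun c => sel c false))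
    (F : (ℕ → ℝ) → ℂ) (hF : Measurable F) (C : ℝ) (hb : ∀ y, ‖F y‖ ≤ C) :
    ∫ y, F y ∂(Measure.infinitePi ν) =
      ∫ c, av hf S (fun T => F (fun k => sel (c k) (decide (k ∈ T)))) ∂(Measure.infinitePi lam) := by
  classical
  have hRm : ∀ T : Finset ℕ, Measurable
      (fun (c : ℕ → DE) (k : ℕ) => sel (c k) (decide (k ∈ T))) := fun T =>
    measurable_pi_lambda _ fun k => (measurable_sel _).comp (measurable_pi_apply k)
  have hwt : ∀ T ∈ S.powerset, Pool.Agent.Helper59.RE.wt hf S T = (1 / 2) ^ S.card := by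
    intro T hT
    rw [Finset.mem_powerset] at hT
    unfold Pool.Agent.Helper59.RE.wt hf
    rw [Finset.prod_const, Finset.prod_const, ← Finset.card_sdiff_add_card_eq_card hT]
    norm_num
    rw [← pow_add, add_comm]
  have hint : ∀ T : Finset ℕ, Integrable
      (fun c : ℕ → DE => F (fun k => sel (c k) (decide (k ∈ T)))) (Measure.infinitePi lam) := by
    intro T
    exact Integrable.of_bound (hF.comp (hRm T)).aestronglyMeasurable C
      (Filter.Eventually.of_forall fun c => hb _)
  rw [infPi_sum32 ν lam S hS hν]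
  have hint2 : ∀ T ∈ S.powerset, Integrable F (((1 / 2 : ℝ≥0∞) ^ S.card) •
      (Measure.infinitePi lam).map (fun (c : ℕ → DE) (k : ℕ) => sel (c k) (decide (k ∈ T)))) := by
    intro T _
    apply Integrable.smul_measure
    · rw [integrable_map_measure hF.aestronglyMeasurable (hRm T).aemeasurable]
      exact hint T
    · exact ENNReal.pow_ne_top (by simp)
  rw [integral_finsetSum_measure hint2]
  have hav : ∀ c : ℕ → DE, av hf S (fun T => F (fun k => sel (c k) (decide (k ∈ T)))) =
      ∑ T ∈ S.powerset, Pool.Agent.Helper59.RE.wt hf S T •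
        F (fun k => sel (c k) (decide (k ∈ T))) := fun c => rfl
  simp only [hav]
  have hint3 : ∀ T ∈ S.powerset, Integrable (fun c : ℕ → DE =>
      Pool.Agent.Helper59.RE.wt hf S T • F (fun k => sel (c k) (decide (k ∈ T))))
      (Measure.infinitePi lam) := fun T _ => (hint T).smul (Pool.Agent.Helper59.RE.wt hf S T)
  rw [integral_finsetSum _ hint3]
  refine Finset.sum_congr rfl fun T hT => ?_
  rw [integral_smul_measure, integral_map (hRm T).aemeasurable hF.aestronglyMeasurable,
    integral_smul, hwt T hT]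
  congr 1
  rw [ENNReal.toReal_pow]
  norm_num

end Pool.Agent.Helper59.RG
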