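import Pool.Agent.Helper59.RG.Pt
import Pool.Agent.Helper59.RG.Dec
import Pool.Agent.Helper59.RG.Prd
import Pool.Agent.Helper59.RG.Mix
import Pool.Agent.Helper59.RG.LawU
import Pool.Agent.Helper59.RG.SerM
import Pool.Agent.Helper59.RG.GoodA

/-!
# Block RG-CORRE: the average over all digits

PROOF.  `S = (range (s + 1)).filter (fun k => s^(1-δ/4) ≤ k)`; all its elements are `≥ q` (`hqs`), and it contains all windows (`w.range`).  For every `k` `dec` with
`w = s^(-1+δ)` for `k ∈ S` (`≤ 1`) and `w = 0` otherwise gives `lam k` (`choose`).  Almost every `c` (for `infinitePi lam`) satisfies `Ok B x ε c`: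
`ae_all_iff` over `k`, and each coordinate of `infinitePi lam` has the law `lam k` (`measurePreserving_eval_infinitePi`, `.quasiMeasurePreserving.ae`).
`prd` with `F z = e (f (y + ser N q z))` (measurable: `hf`, `measurable_ser`, `continuous_e`; norm `1`); `norm_integral_le_integral_norm`; `pt` for almost
every `c` (`integral_mono_ae`; `integral_mono_of_nonneg`); the bound is `H (fs S c) + const` with
`H U = ∏ (if w.toWS.Good U i then gam else 1)`, whose integral is `av (..) S H` by `lawU`, and `good_avg` with `ν k = (lam k).real {isLeft}` finishes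
(`0 ≤ gam`: as in `corrW`).
-/

namespace Pool.Agent.Helper59.RG

open Finset MeasureTheory
open Pool.Agent.Helper59.RE (av e)
open Pool.Agent.Helper59.RF (Bs WS WT hf gam Tay Dif)

private lemma isl72 : Measurable (fun c : DE => c.isLeft) := by
  refine measurable_fun_sum ?_ ?_
  · exact measurable_const
  · exact measurable_const

private lemma meas72 (S : Finset ℕ) (H : Finset ℕ → ℝ) : Measurable (fun c : ℕ → DE => H (fs S c)) := by
  classical
  have h1 : Measurable (fun (c : ℕ → DE) (k : S) => (c k).isLeft) :=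
    measurable_pi_lambda _ fun k => isl72.comp (measurable_pi_apply _)
  have h2 : Measurable (fun b : S → Bool => H ((univ.filter (fun k : S => b k = true)).image (fun k : S => (k : ℕ)))) :=
    measurable_of_finite _
  have h3 : (fun c : ℕ → DE => H (fs S c)) =
      (fun b : S → Bool => H ((univ.filter (fun k : S => b k = true)).image (fun k : S => (k : ℕ)))) ∘
        (fun (c : ℕ → DE) (k : S) => (c k).isLeft) := by
    funext c
    simp only [Function.comp]
    congr 1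
    ext k
    simp only [fs, Finset.mem_filter, Finset.mem_image, Finset.mem_univ, true_and]
    constructor
    · rintro ⟨hk, h⟩
      exact ⟨⟨k, hk⟩, h, rfl⟩
    · rintro ⟨⟨k', hk'⟩, h, rfl⟩
      exact ⟨hk', h⟩
  rw [h3]
  exact h2.comp h1

private lemma norm_e72 (t : ℝ) : ‖e t‖ = 1 := by
  unfold Pool.Agent.Helper59.RE.e
  rw [show (2 * Real.pi * Complex.I * (t : ℂ)) = ((2 * Real.pi * t : ℝ) : ℂ) * Complex.I by push_cast; ring]
  exact Complex.norm_exp_ofReal_mul_I _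

theorem corrE {N B : ℕ → ℝ} (hN : ∀ k, 0 < N k) (hBs : Summable fun k => B k / N k)
    {θ x ε δ Z Z0 t0 : ℝ} {s d Q L q : ℕ} (hθN : ∀ k, 1 ≤ k → θ * N k ≤ N (k + 1)) (hx : 0 < x)
    (hε0 : 0 ≤ ε) (hε1 : ε < 1) (hε2 : (1 + ε) ^ (d + 1) ≤ 11 / 10)
    (hε3 : 10 / 11 ≤ (1 - ε) ^ (d + 1)) (hεθ : 1 + ε < θ * (1 - ε))
    (hδ0 : 0 < δ) (hδ1 : δ ≤ 1 / 4) (hdδ : 2 ≤ δ * d)
    (hs : 2 ≤ s) (hsx : (1 / x) ^ (d - 1) ≤ s) (hd : 2 ≤ d) (w : WT N δ Z0 t0 s d Q L)
    (ht0 : 0 < t0) (ht1 : t0 ≤ 6 / 25) (hγ : gam (t0 / 2) s d Q ≤ 1) (hZ : 0 ≤ Z)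
    (hZ0 : Z0 * (1 / x) ^ (d + 1) = 6 / 5 * Z) (hqs : (q : ℝ) ≤ (s : ℝ) ^ (1 - δ / 4))
    (f g : ℝ → ℝ) (hfm : Measurable f) (y : ℝ)
    (hT : Tay f g (y - ser N q B) (y + ser N q B) Z)
    (hD : Dif d g (y - ser N q B) (y + ser N q B) Z)
    (ν : ℕ → Measure ℝ) [∀ k, IsProbabilityMeasure (ν k)] (hνB : ∀ k, ∀ᵐ z ∂(ν k), |z| ≤ B k)
    (hνx : ∀ k : ℕ, (s : ℝ) ^ (1 - δ / 4) ≤ k → k ≤ s →
      (s : ℝ) ^ (-1 + δ) ≤ ((ν k).prod (ν k)).real {p : ℝ × ℝ | |p.1 - p.2 - x| ≤ ε / 2 * x}) :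
    ‖∫ z, e (f (y + ser N q z)) ∂(Measure.infinitePi ν)‖ ≤
      (gam (t0 / 2) s d Q + Q * ((s : ℝ) ^ (δ / 8) *
        (2 ^ (d + 1) * (s : ℝ) ^ (-(2 / 3 * δ)) + (s : ℝ) ^ (-δ)))) ^ L +
        (2 * d + 7) * (L * Q) ^ 2 * (1 / (s : ℝ) ^ 30) := by
  classical
  have hs1 : (1 : ℝ) < s := by exact_mod_cast (by omega : 1 < s)
  have hs0 : (0 : ℝ) < s := by linarith
  have ht0' : 0 < (s : ℝ) ^ (-1 + δ) := Real.rpow_pos_of_pos hs0 _
  have ht1' : (s : ℝ) ^ (-1 + δ) < 1 := Real.rpow_lt_one_of_one_lt_of_neg hs1 (by linarith)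
  obtain ⟨S, hSd⟩ : ∃ S : Finset ℕ, S = (range (s + 1)).filter (fun k : ℕ => (s : ℝ) ^ (1 - δ / 4) ≤ k) := ⟨_, rfl⟩
  have hmem : ∀ k : ℕ, k ∈ S ↔ k ≤ s ∧ (s : ℝ) ^ (1 - δ / 4) ≤ k := by
    intro k
    rw [hSd, Finset.mem_filter, Finset.mem_range, Nat.lt_succ_iff]
  have hSq : ∀ k ∈ S, q ≤ k := by
    intro k hk
    have h1 : (q : ℝ) ≤ (k : ℝ) := hqs.trans ((hmem k).1 hk).2
    exact_mod_cast h1
  obtain ⟨wt, hwt⟩ : ∃ wt : ℕ → ℝ, wt = fun k => if k ∈ S then (s : ℝ) ^ (-1 + δ) else 0 := ⟨_, rfl⟩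
  have hwt0 : ∀ k, 0 ≤ wt k := by
    intro k
    rw [hwt]
    dsimp only
    split_ifs
    · exact ht0'.le
    · exact le_rfl
  have hwt1 : ∀ k, wt k ≤ 1 := by
    intro k
    rw [hwt]
    dsimp only
    split_ifs
    · exact ht1'.le
    · exact zero_le_one
  have hwt2 : ∀ k, wt k ≤ ((ν k).prod (ν k)).real {p : ℝ × ℝ | |p.1 - p.2 - x| ≤ ε / 2 * x} := by
    intro k
    rw [hwt]
    dsimp only
    split_ifs with h
    · exact hνx k ((hmem k).1 h).2 ((hmem k).1 h).1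
    · exact measureReal_nonneg
  choose lam hprob hlw hae hdec using fun k => dec (ν k) x (ε / 2 * x) (wt k) (hwt0 k) (hwt1 k) (hwt2 k) (B k) (hνB k)
  haveI : ∀ k, IsProbabilityMeasure (lam k) := hprob
  have hS0 : ∀ k, k ∉ S → (lam k).real {c | c.isLeft = true} = 0 := by
    intro k hk
    rw [hlw k, hwt]
    dsimp only
    rw [if_neg hk]
  have hFm : Measurable (fun z : ℕ → ℝ => e (f (y + ser N q z))) := by
    have h1 : Measurable (fun t : ℝ => e t) := by
      unfold Pool.Agent.Helper59.RE.e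
      fun_prop
    exact h1.comp (hfm.comp ((measurable_ser N q).const_add y))
  have hFb : ∀ z : ℕ → ℝ, ‖e (f (y + ser N q z))‖ ≤ 1 := fun z => (norm_e72 _).le
  have h1 := prd ν lam S hS0 hdec (fun z : ℕ → ℝ => e (f (y + ser N q z))) hFm 1 hFb
  rw [h1]
  obtain ⟨H, hH⟩ : ∃ H : Finset ℕ → ℝ, H = fun U => ∏ i ∈ range L, if w.toWS.Good U i then gam (t0 / 2) s d Q else 1 := ⟨_, rfl⟩
  obtain ⟨M, hM⟩ : ∃ M : ℝ, M = (2 * d + 7) * (L * Q) ^ 2 * (1 / (s : ℝ) ^ 30) := ⟨_, rfl⟩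
  have hOk : ∀ᵐ c ∂(Measure.infinitePi lam), Ok B x ε c := by
    have h2 : ∀ᵐ c ∂(Measure.infinitePi lam), ∀ k, (∀ p, c k = Sum.inl p → |p.1 - p.2 - x| ≤ ε / 2 * x) ∧
        ∀ t, |sel (c k) t| ≤ B k :=
      ae_all_iff.2 fun k => (measurePreserving_eval_infinitePi lam k).quasiMeasurePreserving.ae (hae k)
    filter_upwards [h2] with c hc
    exact ⟨fun k p hp => (hc k).1 p hp, fun k t => (hc k).2 t⟩
  have hpt : ∀ᵐ c ∂(Measure.infinitePi lam),
      ‖av hf S (fun T => e (f (y + ser N q (fun k => sel (c k) (decide (k ∈ T))))))‖ ≤ H (fs S c) + M := by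
    filter_upwards [hOk] with c hc
    rw [hH, hM]
    exact pt hN hBs hθN hx hε0 hε1 hε2 hε3 hεθ (by omega) hsx hd w ht0 ht1 hγ hZ hZ0 f g y hT hD S hSq c hc
  have hg0 : 0 ≤ gam (t0 / 2) s d Q := by
    unfold Pool.Agent.Helper59.RF.gam
    apply Real.rpow_nonneg
    have h4 : (1 : ℝ) ≤ 4 ^ d := one_le_pow₀ (by norm_num)
    have h5 : 2 * (t0 / 2) ^ 2 / 4 ^ d ≤ 1 := by
      rw [div_le_one (by positivity)]
      nlinarith
    have h6 : (0 : ℝ) ≤ (1 - 2 * (t0 / 2) ^ 2 / 4 ^ d) ^ Q := pow_nonneg (by linarith) _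
    positivity
  have hHb : ∀ U, ‖H U‖ ≤ 1 := by
    intro U
    rw [hH]
    dsimp only
    rw [Real.norm_eq_abs, Finset.abs_prod]
    refine Finset.prod_le_one (fun i _ => abs_nonneg _) fun i _ => ?_
    split_ifs
    · rw [abs_of_nonneg hg0]
      exact hγ
    · simp
  have hHint : Integrable (fun c : ℕ → DE => H (fs S c)) (Measure.infinitePi lam) := by
    refine Integrable.of_bound (meas72 S H).aestronglyMeasurable 1 ?_
    exact Filter.Eventually.of_forall fun c => hHb _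
  calc ‖∫ c, av hf S (fun T => e (f (y + ser N q (fun k => sel (c k) (decide (k ∈ T)))))) ∂(Measure.infinitePi lam)‖
      ≤ ∫ c, ‖av hf S (fun T => e (f (y + ser N q (fun k => sel (c k) (decide (k ∈ T))))))‖ ∂(Measure.infinitePi lam) :=
        norm_integral_le_integral_norm _
    _ ≤ ∫ c, (H (fs S c) + M) ∂(Measure.infinitePi lam) := by
        refine integral_mono_of_nonneg (Filter.Eventually.of_forall fun c => norm_nonneg _) (hHint.add (integrable_const M)) hpt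
    _ = av (fun k => (lam k).real {c | c.isLeft = true}) S H + M := by
        rw [integral_add hHint (integrable_const M), lawU lam S H]
        simp
    _ ≤ _ := by
        rw [hM]
        refine add_le_add ?_ le_rfl
        rw [hH]
        refine good_avg hδ0 hδ1 hs hd hdδ w.toWS (fun k => (lam k).real {c | c.isLeft = true}) ?_ ?_ ?_ S ?_ _ hg0
        · intro k
          exact measureReal_nonneg
        · intro k
          rw [hlw k]
          exact hwt1 k
        · intro k hk1 hk2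
          rw [hlw k, hwt]
          dsimp only
          rw [if_pos ((hmem k).2 ⟨hk2, hk1⟩)]
        · intro i hi j l k hk
          obtain ⟨h2, h3⟩ := w.range i hi j l k hk
          exact (hmem k).2 ⟨h3, h2⟩

end Pool.Agent.Helper59.RG
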