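import Pool.Agent.Helper59.RG.CorrE
import Pool.Agent.Helper59.RG.Tail

/-!
# Block RG-CORRG: the correlations, one value of the first digits

PROOF.  As `corr_finN` in `RF/CorrFin2.lean` (with `corrFin2_inner`), simpler: no patterns.  `B k = C (k+1)^A`, `q' = Nat.sqrt m`, `W = ser N q' B`.
`hN.win` gives `t0`; `d ≥ 2` with `2 ≤ δ d`; `θ` from `hN.bs.dbl`; choose `ε ∈ (0, 1)` with `(1+ε)^(d+1) ≤ 11/10`, `10/11 ≤ (1-ε)^(d+1)`,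
`1 + ε < θ (1 - ε)` (continuity at `0`); `k₀` from `hνx` with `η = ε/2 x`.  `asyW δ (t0/2)` gives `Q`, `S1`; the windows `S2`; `calcR P b' w .. (d+1)` gives
`c1, C1, m₁`; `s_geN`, `tail_small` with `C1` (`2 W ≤ 1/(C1 m)`).  For `m` large and `y` as stated `calcR` at `x0 = y - W`, `w' = 2 W` gives `Z`;
the function is `f = h * Fi P m n 0`, `g = h * Fi P m n 1`, with `Z' = h Z` in the place of `Z` (`Tay`, `Dif` as in `corrFin2_inner`).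
`Z0 = 6/5 h Z x^(d+1)`, so `Z0 (1/x)^(d+1) = 6/5 h Z`; `Z0 ≥ (6/5) x^(d+1) c1 b'^m`; `exists_s` for `Z0` gives `s ≥ S`, where `S` is a bound with `S ≥ S1, S2, k₀² ..,
S ≥ (1/x)^(d-1)`; `s_geN` with the constant `(6/5) x^(d+1) c1` gives `m^(3/4) ≤ s`.  Then `corrE` and `1 / s^6 ≤ 1 / m^4`.
`hqs`: `q' ≤ √m ≤ m^((3/4)(1-δ/4)) ≤ s^(1-δ/4)`.  All as in `corr_finN`.
-/

namespace Pool.Agent.Helper59.RG

open Finset MeasureTheory Polynomial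
open Pool.Agent.Helper59.RE (e FF)
open Pool.Agent.Helper59.RF (Bs WS WT hf gam Tay Dif Ln Fi fi_zero fi_hasDeriv tay_of_deriv
  dif_of_deriv asyW calcR s_geN exists_s)

/-- the choice of `ε` -/
private theorem exists_eps (d : ℕ) (θ : ℝ) (hθ : 1 < θ) : ∃ ε : ℝ, 0 < ε ∧ ε < 1 ∧
    (1 + ε) ^ (d + 1) ≤ 11 / 10 ∧ 10 / 11 ≤ (1 - ε) ^ (d + 1) ∧ 1 + ε < θ * (1 - ε) := by
  have h1 : ∀ᶠ ε : ℝ in nhds 0, (1 + ε) ^ (d + 1) < 11 / 10 := by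
    have hc : Continuous fun ε : ℝ => (1 + ε) ^ (d + 1) := by fun_prop
    have := hc.tendsto 0
    refine this.eventually (gt_mem_nhds ?_)
    norm_num
  have h2 : ∀ᶠ ε : ℝ in nhds 0, 10 / 11 < (1 - ε) ^ (d + 1) := by
    have hc : Continuous fun ε : ℝ => (1 - ε) ^ (d + 1) := by fun_prop
    have := hc.tendsto 0
    refine this.eventually (lt_mem_nhds ?_)
    norm_num
  have h3 : ∀ᶠ ε : ℝ in nhds 0, 0 < θ * (1 - ε) - (1 + ε) := by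
    have hc : Continuous fun ε : ℝ => θ * (1 - ε) - (1 + ε) := by fun_prop
    have := hc.tendsto 0
    refine this.eventually (lt_mem_nhds ?_)
    linarith
  have h4 : ∀ᶠ ε : ℝ in nhds 0, ε < 1 := gt_mem_nhds (by norm_num)
  have h5 := ((h1.and (h2.and (h3.and h4))).filter_mono
    (nhdsWithin_le_nhds (a := (0 : ℝ)) (s := Set.Ioi 0))).and
    (eventually_nhdsWithin_of_forall (s := Set.Ioi (0 : ℝ)) (a := 0)
      (p := fun ε => 0 < ε) fun ε hε => hε)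
  obtain ⟨ε, ⟨a1, a2, a3, a4⟩, a5⟩ := h5.exists
  exact ⟨ε, a5, a4, a1.le, a2.le, by linarith⟩

theorem corrG {N : ℕ → ℝ} (hN : NT N) (C : ℝ) (hC : 0 ≤ C) (A : ℕ) (x δ : ℝ) (hx : 0 < x)
    (hδ0 : 0 < δ) (hδ1 : δ ≤ 1 / 4) (ν : ℕ → Measure ℝ) [∀ k, IsProbabilityMeasure (ν k)]
    (hνB : ∀ k : ℕ, ∀ᵐ z ∂(ν k), |z| ≤ C * ((k : ℝ) + 1) ^ A)
    (hνx : ∀ η : ℝ, 0 < η → ∃ k₀ : ℕ, ∀ k : ℕ, k₀ ≤ k →
      (k : ℝ) ^ (-1 + δ) ≤ ((ν k).prod (ν k)).real {p : ℝ × ℝ | |p.1 - p.2 - x| ≤ η})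
    (P : ℝ[X]) (b' w : ℝ) (hb : 1 < b') (hw : 0 < w)
    (hP : ∀ x ∈ Set.Icc b' (b' + w), 0 < P.eval x) :
    ∃ m₀ : ℕ, ∀ m : ℕ, m₀ ≤ m → ∀ n < m, ∀ h : ℕ, 1 ≤ h → ∀ y : ℝ,
      b' ≤ y - ser N (Nat.sqrt m) (fun k => C * ((k : ℝ) + 1) ^ A) →
      y + ser N (Nat.sqrt m) (fun k => C * ((k : ℝ) + 1) ^ A) ≤ b' + w →
      ‖∫ z, e (h * FF P m n (y + ser N (Nat.sqrt m) z)) ∂(Measure.infinitePi ν)‖ ≤
        1 / (m : ℝ) ^ 4 := by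
  obtain ⟨t0, ht0, ht1, hWin⟩ := hN.win
  obtain ⟨D, k₁, hgr⟩ := hN.gr
  obtain ⟨θ, hθ1, hθN⟩ := hN.bs.dbl
  obtain ⟨d, hd, hdδ⟩ : ∃ d : ℕ, 2 ≤ d ∧ 2 ≤ δ * d := by
    refine ⟨max 2 ⌈2 / δ⌉₊, le_max_left _ _, ?_⟩
    have h1 : 2 / δ ≤ (max 2 ⌈2 / δ⌉₊ : ℕ) :=
      (Nat.le_ceil _).trans (by exact_mod_cast le_max_right _ _)
    rw [div_le_iff₀ hδ0] at h1
    linarith
  obtain ⟨ε, hε0, hε1, hε2, hε3, hεθ⟩ := exists_eps d θ hθ1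
  obtain ⟨k₀, hk₀⟩ := hνx (ε / 2 * x) (by positivity)
  obtain ⟨Q, hQ, S1, hS1⟩ := asyW δ (t0 / 2) hδ0 hδ1 (by linarith) (by linarith) d hd
  obtain ⟨S2, hS2⟩ := hWin δ hδ0 hδ1 d Q hd hQ
  obtain ⟨c1, C1, hc1, hC1, m₁, hcalc⟩ := calcR P b' w hb hw hP (d + 1) (by omega)
  have hc' : 0 < 6 / 5 * x ^ (d + 1) * c1 := by positivity
  obtain ⟨m3, hsge⟩ := s_geN hN.bs D k₁ hgr (6 / 5 * x ^ (d + 1) * c1) b' hc' hb
  obtain ⟨m4, hwid⟩ := tail_small hN.bs C hC A C1 hC1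
  obtain ⟨S, hSdef⟩ : ∃ S, S = S1 + S2 + k₀ ^ 2 + 4 + ⌈(1 / x) ^ (d - 1)⌉₊ := ⟨_, rfl⟩
  obtain ⟨m5, hm5⟩ : ∃ m5 : ℕ, ∀ m, m5 ≤ m → N S ≤ 6 / 5 * x ^ (d + 1) * c1 * b' ^ m := by
    have ht : Filter.Tendsto (fun m : ℕ => 6 / 5 * x ^ (d + 1) * c1 * b' ^ m) Filter.atTop
        Filter.atTop := (tendsto_pow_atTop_atTop_of_one_lt hb).const_mul_atTop hc'
    obtain ⟨m5, h5⟩ := (ht.eventually_ge_atTop (N S)).exists_forall_of_atTop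
    exact ⟨m5, h5⟩
  have hsum := tail_summable hN.bs C A
  have hBabs : ∀ k : ℕ, |C * ((k : ℝ) + 1) ^ A| ≤ C * ((k : ℝ) + 1) ^ A := fun k =>
    le_of_eq (abs_of_nonneg (by positivity))
  refine ⟨m₁ + m3 + m4 + m5 + 1, ?_⟩
  intro m hm n hn h hh y hy1 hy2
  have hm1 : 1 ≤ m := by omega
  obtain ⟨q', hq'def⟩ : ∃ q', q' = Nat.sqrt m := ⟨_, rfl⟩
  have hwidm := hwid m (by omega)
  rw [← hq'def] at hy1 hy2 hwidm ⊢
  obtain ⟨W, hWdef⟩ : ∃ W, W = ser N q' (fun k => C * ((k : ℝ) + 1) ^ A) := ⟨_, rfl⟩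
  have hW0 : 0 ≤ W := by
    rw [hWdef]
    exact (abs_nonneg _).trans (ser_abs hN.bs.pos hsum hBabs q')
  rw [← hWdef] at hy1 hy2 hwidm
  have hh0 : (1 : ℝ) ≤ h := by exact_mod_cast hh
  have hh00 : (0 : ℝ) ≤ h := by linarith
  have hmR : (1 : ℝ) ≤ m := by exact_mod_cast hm1
  have hb0 : 0 < b' := by linarith
  obtain ⟨Z, hZ1, hZ2⟩ := hcalc m (by omega) n hn (y - W) (2 * W) hy1 (by linarith) hwidm
    (by linarith)
  have hZpos : 0 < Z := lt_of_lt_of_le (by positivity) hZ1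
  have hZh : Z ≤ h * Z := by nlinarith
  have hxd : 0 < x ^ (d + 1) := by positivity
  obtain ⟨Z0, hZ0def⟩ : ∃ Z0, Z0 = 6 / 5 * (h * Z) * x ^ (d + 1) := ⟨_, rfl⟩
  have hZ0eq : Z0 * (1 / x) ^ (d + 1) = 6 / 5 * (h * Z) := by
    rw [hZ0def, one_div, inv_pow, mul_assoc, mul_inv_cancel₀ hxd.ne', mul_one]
  have hZ0ge : 6 / 5 * x ^ (d + 1) * c1 * b' ^ m ≤ Z0 := by
    rw [hZ0def]
    have h1 : c1 * b' ^ m ≤ h * Z := hZ1.trans hZh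
    have h2 := mul_le_mul_of_nonneg_left h1 (by positivity : (0 : ℝ) ≤ 6 / 5 * x ^ (d + 1))
    calc 6 / 5 * x ^ (d + 1) * c1 * b' ^ m = 6 / 5 * x ^ (d + 1) * (c1 * b' ^ m) := by ring
      _ ≤ 6 / 5 * x ^ (d + 1) * (h * Z) := h2
      _ = _ := by ring
  obtain ⟨s, hs, hs1, hs2⟩ := exists_s hN.bs S Z0 ((hm5 m (by omega)).trans hZ0ge)
  have hsS1 : S1 ≤ s := by omega
  have hsS2 : S2 ≤ s := by omega
  have hs4 : 4 ≤ s := by omega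
  have hsx : (1 / x) ^ (d - 1) ≤ (s : ℝ) := by
    refine (Nat.le_ceil _).trans ?_
    exact_mod_cast (by omega : ⌈(1 / x) ^ (d - 1)⌉₊ ≤ s)
  have hsm : (m : ℝ) ^ (3 / 4 : ℝ) ≤ s := hsge m (by omega) s (lt_of_le_of_lt hZ0ge hs2)
  have hs0 : (1 : ℝ) ≤ s := by exact_mod_cast (by omega : 1 ≤ s)
  obtain ⟨ww⟩ := hS2 s hsS2 Z0 hs1 hs2
  obtain ⟨hγ, hfin⟩ := hS1 s hsS1
  have hq's : (q' : ℝ) ≤ (s : ℝ) ^ (1 - δ / 4) := by
    have e1 : (q' : ℝ) ≤ Real.sqrt m := by rw [hq'def]; exact Real.nat_sqrt_le_real_sqrt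
    have e2 : Real.sqrt m = (m : ℝ) ^ (1 / 2 : ℝ) := Real.sqrt_eq_rpow _
    have e3 : (m : ℝ) ^ (1 / 2 : ℝ) ≤ (m : ℝ) ^ ((3 / 4 : ℝ) * (1 - δ / 4)) :=
      Real.rpow_le_rpow_of_exponent_le hmR (by nlinarith)
    have e4 : (m : ℝ) ^ ((3 / 4 : ℝ) * (1 - δ / 4)) = ((m : ℝ) ^ (3 / 4 : ℝ)) ^ (1 - δ / 4) :=
      Real.rpow_mul (by positivity) _ _
    have e5 : ((m : ℝ) ^ (3 / 4 : ℝ)) ^ (1 - δ / 4) ≤ (s : ℝ) ^ (1 - δ / 4) :=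
      Real.rpow_le_rpow (by positivity) hsm (by linarith)
    rw [e2] at e1
    rw [e4] at e3
    linarith
  have hmu : ∀ k : ℕ, (s : ℝ) ^ (1 - δ / 4) ≤ k → k ≤ s →
      (s : ℝ) ^ (-1 + δ) ≤
        ((ν k).prod (ν k)).real {p : ℝ × ℝ | |p.1 - p.2 - x| ≤ ε / 2 * x} := by
    intro k hk1 hk2
    have hk0 : k₀ ≤ k := by
      have e1 : ((k₀ : ℝ) ^ 2) ≤ s := by
        have : k₀ ^ 2 ≤ s := by omega
        exact_mod_cast this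
      have e2 : (s : ℝ) ^ (1 / 2 : ℝ) ≤ (s : ℝ) ^ (1 - δ / 4) :=
        Real.rpow_le_rpow_of_exponent_le hs0 (by linarith)
      have e3 : (k₀ : ℝ) ≤ (s : ℝ) ^ (1 / 2 : ℝ) := by
        rw [← Real.sqrt_eq_rpow]
        exact Real.le_sqrt_of_sq_le e1
      have e4 : (k₀ : ℝ) ≤ k := by linarith
      exact_mod_cast e4
    have hkpos : (0 : ℝ) < k := lt_of_lt_of_le (by positivity) hk1
    have e5 : (s : ℝ) ^ (-1 + δ) ≤ (k : ℝ) ^ (-1 + δ) :=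
      Real.rpow_le_rpow_of_nonpos hkpos (by exact_mod_cast hk2) (by linarith)
    exact e5.trans (hk₀ k hk0)
  have hfin' : 1 / (s : ℝ) ^ 6 ≤ 1 / (m : ℝ) ^ 4 := by
    refine one_div_le_one_div_of_le (by positivity) ?_
    have e1 : ((m : ℝ) ^ (3 / 4 : ℝ)) ^ 6 ≤ (s : ℝ) ^ 6 :=
      pow_le_pow_left₀ (by positivity) hsm 6
    have e2 : ((m : ℝ) ^ (3 / 4 : ℝ)) ^ 6 = (m : ℝ) ^ (9 / 2 : ℝ) := by
      rw [← Real.rpow_natCast, ← Real.rpow_mul (by positivity)]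
      norm_num
    have e3 : (m : ℝ) ^ 4 ≤ (m : ℝ) ^ (9 / 2 : ℝ) := by
      rw [← Real.rpow_natCast]
      exact Real.rpow_le_rpow_of_exponent_le hmR (by norm_num)
    rw [e2] at e1
    linarith
  have hint : y - W + 2 * W = y + W := by ring
  rw [hint] at hZ2
  have hT : Tay (fun x => (h : ℝ) * Fi P m n 0 x) (fun x => (h : ℝ) * Fi P m n 1 x)
      (y - W) (y + W) (h * Z) := by
    refine tay_of_deriv _ _ (fun x => (h : ℝ) * Fi P m n 2 x) _ _ _ ?_ ?_ ?_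
    · intro x _
      exact (fi_hasDeriv P m n 0 x).const_mul _
    · intro x _
      exact (fi_hasDeriv P m n 1 x).const_mul _
    · intro x hx
      rw [abs_mul, abs_of_nonneg hh00]
      exact mul_le_mul_of_nonneg_left (hZ2 x hx).2.2 hh00
  have hD : Dif d (fun x => (h : ℝ) * Fi P m n 1 x) (y - W) (y + W) (h * Z) := by
    refine dif_of_deriv d (fun i x => (h : ℝ) * Fi P m n (i + 1) x) _ _ _ ?_ ?_
    · intro i _ x _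
      exact (fi_hasDeriv P m n (i + 1) x).const_mul _
    · intro x hx
      obtain ⟨h1, h2, _⟩ := hZ2 x hx
      refine ⟨mul_le_mul_of_nonneg_left h1 hh00, ?_⟩
      have := mul_le_mul_of_nonneg_left h2 hh00
      calc (h : ℝ) * Fi P m n (d + 1) x ≤ h * (1.01 * Z) := this
        _ = 1.01 * (h * Z) := by ring
  have hfm : Measurable fun x => (h : ℝ) * Fi P m n 0 x := by
    have hc : Continuous fun x => (h : ℝ) * Fi P m n 0 x := by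
      rw [continuous_iff_continuousAt]
      intro x
      exact ((fi_hasDeriv P m n 0 x).const_mul _).continuousAt
    exact hc.measurable
  rw [hWdef] at hT hD
  have hfinal := corrE (B := fun k : ℕ => C * ((k : ℝ) + 1) ^ A) hN.bs.pos hsum hθN hx hε0.le hε1
    hε2 hε3 hεθ hδ0 hδ1 hdδ (by omega) hsx hd ww ht0 ht1 hγ (mul_nonneg hh00 hZpos.le) hZ0eq hq's
    _ _ hfm y hT hD ν hνB hmu
  simp only [fi_zero] at hfinal
  exact hfinal.trans (hfin.trans hfin')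

end Pool.Agent.Helper59.RG
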