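import Pool.Agent.Helper59.RG.Defs0

/-!
# Block RG-PERT: perturbed denominators

PROOF.
* `bs_pert`: `N' k > 0` from `hNN` and `1 - ε > 0`; `θ' = θ (1-ε) / (1+ε) > 1`: `N' (k+1) ≥ a (1-ε) N (k+1) ≥ a (1-ε) θ N k ≥ θ' N' k`.
* `inv_pert`: with `y = x (1 + t)`, `|t| ≤ ε / 2`, `0 ≤ ε < 1`: `1 / (1 + t) ∈ [1 - ε, 1 + ε]` because `(1 + t)(1 - ε) ≤ (1 + ε/2)(1 - ε) ≤ 1` and
  `(1 + t)(1 + ε) ≥ (1 - ε/2)(1 + ε) ≥ 1`.
-/

namespace Pool.Agent.Helper59.RG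

open Finset
open Pool.Agent.Helper59.RF (Bs)

theorem bs_pert {N N' : ℕ → ℝ} (hN : ∀ k, 0 < N k) {a ε θ : ℝ} (ha : 0 < a) (hε0 : 0 ≤ ε)
    (hε1 : ε < 1) (hθ : 1 + ε < θ * (1 - ε)) (hN2 : ∀ k, 1 ≤ k → θ * N k ≤ N (k + 1))
    (hNN : ∀ k, a * N k * (1 - ε) ≤ N' k ∧ N' k ≤ a * N k * (1 + ε)) : Bs N' := by
  have h1 : 0 < 1 - ε := by linarith
  have h2 : 0 < 1 + ε := by linarith
  have hθ0 : 0 < θ := by
    by_contra hcon
    push Not at hcon
    nlinarith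
  refine ⟨fun k => ?_, θ * (1 - ε) / (1 + ε), ?_, fun k hk => ?_⟩
  · exact lt_of_lt_of_le (by have := hN k; positivity) (hNN k).1
  · rw [lt_div_iff₀ h2]
    linarith
  · have hNk := hN k
    calc θ * (1 - ε) / (1 + ε) * N' k ≤ θ * (1 - ε) / (1 + ε) * (a * N k * (1 + ε)) :=
          mul_le_mul_of_nonneg_left (hNN k).2 (by positivity)
      _ = a * (θ * N k) * (1 - ε) := by
          field_simp
      _ ≤ a * N (k + 1) * (1 - ε) := by
          apply mul_le_mul_of_nonneg_right _ h1.le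
          exact mul_le_mul_of_nonneg_left (hN2 k hk) ha.le
      _ ≤ N' (k + 1) := (hNN (k + 1)).1

theorem inv_pert {x ε y M : ℝ} (hx : 0 < x) (hε0 : 0 ≤ ε) (hε1 : ε < 1) (hM : 0 < M)
    (hy : |y - x| ≤ ε / 2 * x) :
    0 < y ∧ 1 / x * M * (1 - ε) ≤ M / y ∧ M / y ≤ 1 / x * M * (1 + ε) := by
  rw [abs_le] at hy
  obtain ⟨hy1, hy2⟩ := hy
  have hy0 : 0 < y := by nlinarith
  refine ⟨hy0, ?_, ?_⟩
  · rw [le_div_iff₀ hy0]
    have h1 : y * (1 - ε) ≤ x := by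
      have h3 : y * (1 - ε) ≤ (x + ε / 2 * x) * (1 - ε) :=
        mul_le_mul_of_nonneg_right (by linarith) (by linarith)
      have h4 : (x + ε / 2 * x) * (1 - ε) = x - x * (ε / 2 + ε ^ 2 / 2) := by ring
      have h5 : 0 ≤ x * (ε / 2 + ε ^ 2 / 2) := by positivity
      linarith
    calc 1 / x * M * (1 - ε) * y = 1 / x * M * (y * (1 - ε)) := by ring
      _ ≤ 1 / x * M * x := mul_le_mul_of_nonneg_left h1 (by positivity)
      _ = M := by field_simp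
  · rw [div_le_iff₀ hy0]
    have h1 : x ≤ y * (1 + ε) := by
      have h3 : (x - ε / 2 * x) * (1 + ε) ≤ y * (1 + ε) :=
        mul_le_mul_of_nonneg_right (by linarith) (by linarith)
      have h4 : (x - ε / 2 * x) * (1 + ε) = x + x * (ε / 2 * (1 - ε)) := by ring
      have h5 : 0 ≤ x * (ε / 2 * (1 - ε)) := by
        have : 0 ≤ 1 - ε := by linarith
        positivity
      linarith
    calc M = 1 / x * M * x := by field_simp
      _ ≤ 1 / x * M * (y * (1 + ε)) := mul_le_mul_of_nonneg_left h1 (by positivity)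
      _ = 1 / x * M * (1 + ε) * y := by ring

end Pool.Agent.Helper59.RG
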