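import Pool.Agent.Helper59.RG.Defs0
import Pool.Agent.Helper59.RF.Win

/-!
# Block RG-TRA: the windows do not change if the denominators change a little

`N' k = a N k (1 + O(ε))`.  The windows `W`, the tight tuples `TT` and `u` of `w'` are those of `w`.

PROOF.  `(1-ε)^(d+1) ≥ 10/11`, `(1+ε)^(d+1) ≤ 11/10`, so a product of `d+1` values `N' k` is `a^(d+1) ∏ N k` up to a factor in
`[10/11, 11/10]` (`Finset.prod_le_prod`, `Finset.prod_mul_distrib`, `Finset.prod_const`, `Fintype.card_fin`).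
`Z = (5/6) Z0 a^(d+1)`.
* `tight`: `Z / ∏ N' = (5/6) (Z0 / ∏ N) * (factor in [10/11, 11/10])`: at least `(5/6)(10/11) t0 ≥ t0 / 2`, at most `(5/6)(11/10)(3/4) ≤ 3/4`.
* `e1`: `N' K ≥ a (1-ε) N K`, `(1-ε)² ≥ (1-ε)^(d+1) ≥ 10/11` (`0 ≤ 1-ε ≤ 1`, `d ≥ 2`), so
  `Z / (N' K)² ≤ (5/6)(11/10) a^(d-1) Z0 / (N K)² ≤ a^(d-1) / s^31 ≤ 1 / s^30` by `w.f1` and `a^(d-1) ≤ s`.  `e2`: the same with `w.f2`.
* `e3`: `d+1` factors: `Z / (N' (τ last) * ∏ N' (k l)) ≤ (5/6)(11/10) Z0 / (N (τ last) * ∏ N (k l)) ≤ 1 / s^30` by `w.e3`.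
* all other fields are those of `w` (they do not mention `N`).
-/

namespace Pool.Agent.Helper59.RG

open Finset
open Pool.Agent.Helper59.RF (WS WT invEs)

/-- A product of `d + 1` perturbed denominators. -/
theorem tra_prod {N N' : ℕ → ℝ} (hN : ∀ k, 0 < N k) {a ε : ℝ} {d : ℕ} (ha : 0 < a)
    (hε0 : 0 ≤ ε) (hε1 : ε < 1) (hε2 : (1 + ε) ^ (d + 1) ≤ 11 / 10)
    (hε3 : 10 / 11 ≤ (1 - ε) ^ (d + 1))
    (hNN : ∀ k, a * N k * (1 - ε) ≤ N' k ∧ N' k ≤ a * N k * (1 + ε)) (f : Fin (d + 1) → ℕ) :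
    10 / 11 * (a ^ (d + 1) * ∏ l, N (f l)) ≤ ∏ l, N' (f l) ∧
      ∏ l, N' (f l) ≤ 11 / 10 * (a ^ (d + 1) * ∏ l, N (f l)) := by
  have h1 : 0 < 1 - ε := by linarith
  have h2 : 0 < 1 + ε := by linarith
  have hP : 0 < a ^ (d + 1) * ∏ l, N (f l) :=
    mul_pos (pow_pos ha _) (Finset.prod_pos fun l _ => hN _)
  have e1 : ∏ l, (a * N (f l) * (1 - ε)) = (1 - ε) ^ (d + 1) * (a ^ (d + 1) * ∏ l, N (f l)) := by
    rw [Finset.prod_mul_distrib, Finset.prod_mul_distrib, Finset.prod_const, Finset.prod_const,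
      Finset.card_univ, Fintype.card_fin]
    ring
  have e2 : ∏ l, (a * N (f l) * (1 + ε)) = (1 + ε) ^ (d + 1) * (a ^ (d + 1) * ∏ l, N (f l)) := by
    rw [Finset.prod_mul_distrib, Finset.prod_mul_distrib, Finset.prod_const, Finset.prod_const,
      Finset.card_univ, Fintype.card_fin]
    ring
  constructor
  · calc 10 / 11 * (a ^ (d + 1) * ∏ l, N (f l))
        ≤ (1 - ε) ^ (d + 1) * (a ^ (d + 1) * ∏ l, N (f l)) :=
          mul_le_mul_of_nonneg_right hε3 hP.le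
      _ = ∏ l, (a * N (f l) * (1 - ε)) := e1.symm
      _ ≤ ∏ l, N' (f l) :=
          Finset.prod_le_prod (fun l _ => by have := hN (f l); positivity) fun l _ => (hNN _).1
  · calc ∏ l, N' (f l) ≤ ∏ l, (a * N (f l) * (1 + ε)) :=
          Finset.prod_le_prod (fun l _ => le_trans (by have := hN (f l); positivity) (hNN _).1)
            fun l _ => (hNN _).2
      _ = (1 + ε) ^ (d + 1) * (a ^ (d + 1) * ∏ l, N (f l)) := e2
      _ ≤ 11 / 10 * (a ^ (d + 1) * ∏ l, N (f l)) := mul_le_mul_of_nonneg_right hε2 hP.le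

theorem tra {N N' : ℕ → ℝ} (hN : ∀ k, 0 < N k) {a ε Z Z0 δ t0 : ℝ} {s d Q L : ℕ} (ha : 0 < a)
    (hε0 : 0 ≤ ε) (hε1 : ε < 1) (hε2 : (1 + ε) ^ (d + 1) ≤ 11 / 10)
    (hε3 : 10 / 11 ≤ (1 - ε) ^ (d + 1))
    (hNN : ∀ k, a * N k * (1 - ε) ≤ N' k ∧ N' k ≤ a * N k * (1 + ε)) (hZ : 0 ≤ Z)
    (hZ0 : Z0 * a ^ (d + 1) = 6 / 5 * Z) (hd : 2 ≤ d) (ht0 : 0 < t0) (hs1 : 1 ≤ s)
    (hs : a ^ (d - 1) ≤ s) (w : WT N δ Z0 t0 s d Q L) :
    ∃ w' : WS N' δ Z (t0 / 2) s d Q L, w'.TT = w.TT ∧ w'.W = w.W := by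
  have h1 : 0 < 1 - ε := by linarith
  have h2 : 0 < 1 + ε := by linarith
  have had : 0 < a ^ (d + 1) := pow_pos ha _
  have hs0 : (1 : ℝ) ≤ s := by exact_mod_cast hs1
  have hsp : (0 : ℝ) < s := by linarith
  have hZe : Z = 5 / 6 * (Z0 * a ^ (d + 1)) := by rw [hZ0]; ring
  have hZ0n : 0 ≤ Z0 := by
    by_contra hcon
    push Not at hcon
    have := mul_neg_of_neg_of_pos hcon had
    linarith
  have hpr := tra_prod hN ha hε0 hε1 hε2 hε3 hNN
  -- the comparison for products of d + 1 factors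
  have up : ∀ X X' : ℝ, 0 < X → 10 / 11 * (a ^ (d + 1) * X) ≤ X' → Z / X' ≤ 11 / 12 * (Z0 / X) := by
    intro X X' hX hXX
    have hX' : 0 < 10 / 11 * (a ^ (d + 1) * X) := by positivity
    calc Z / X' ≤ Z / (10 / 11 * (a ^ (d + 1) * X)) := div_le_div_of_nonneg_left hZ hX' hXX
      _ = 11 / 12 * (Z0 / X) := by
          rw [hZe]
          field_simp
          ring
  have lo : ∀ X X' : ℝ, 0 < X → 0 < X' → X' ≤ 11 / 10 * (a ^ (d + 1) * X) →
      25 / 33 * (Z0 / X) ≤ Z / X' := by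
    intro X X' hX hX' hXX
    calc 25 / 33 * (Z0 / X) = Z / (11 / 10 * (a ^ (d + 1) * X)) := by
          rw [hZe]
          field_simp
          ring
      _ ≤ Z / X' := div_le_div_of_nonneg_left hZ hX' hXX
  -- two factors
  have hsq : 10 / 11 ≤ (1 - ε) ^ 2 :=
    le_trans hε3 (pow_le_pow_of_le_one h1.le (by linarith) (by omega))
  have two : ∀ K k : ℕ, Z0 / (N K * N k) ≤ 1 / (s : ℝ) ^ 31 →
      Z / (N' K * N' k) ≤ 1 / (s : ℝ) ^ 30 := by
    intro K k hKk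
    have hK := hN K
    have hk := hN k
    have hKK : 0 < a ^ 2 * (10 / 11) * (N K * N k) := by positivity
    have hlow : a ^ 2 * (10 / 11) * (N K * N k) ≤ N' K * N' k := by
      calc a ^ 2 * (10 / 11) * (N K * N k) ≤ a ^ 2 * (1 - ε) ^ 2 * (N K * N k) := by
            apply mul_le_mul_of_nonneg_right _ (by positivity)
            exact mul_le_mul_of_nonneg_left hsq (by positivity)
        _ = (a * N K * (1 - ε)) * (a * N k * (1 - ε)) := by ring
        _ ≤ N' K * N' k := by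
            apply mul_le_mul (hNN K).1 (hNN k).1 (by positivity)
            exact le_trans (by positivity) (hNN K).1
    have had1 : a ^ (d + 1) = a ^ (d - 1) * a ^ 2 := by
      rw [← pow_add]
      congr 1
      omega
    calc Z / (N' K * N' k) ≤ Z / (a ^ 2 * (10 / 11) * (N K * N k)) :=
          div_le_div_of_nonneg_left hZ hKK hlow
      _ = 11 / 12 * a ^ (d - 1) * (Z0 / (N K * N k)) := by
          rw [hZe, had1]
          field_simp
          ring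
      _ ≤ 11 / 12 * a ^ (d - 1) * (1 / (s : ℝ) ^ 31) :=
          mul_le_mul_of_nonneg_left hKk (by positivity)
      _ ≤ 1 * (s : ℝ) * (1 / (s : ℝ) ^ 31) := by
          apply mul_le_mul_of_nonneg_right _ (by positivity)
          apply mul_le_mul (by norm_num) hs (by positivity) (by norm_num)
      _ = 1 / (s : ℝ) ^ 30 := by
          field_simp
  refine ⟨⟨w.W, w.TT, w.u, w.mem, w.disj, w.range, ?_, w.inj, w.card_le, w.card_ge, w.u_ge,
    ?_, ?_, ?_⟩, rfl, rfl⟩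
  · intro i hi j τ hτ
    obtain ⟨ht1, ht2⟩ := w.tight i hi j τ hτ
    obtain ⟨hp1, hp2⟩ := hpr τ
    have hX : 0 < ∏ l, N (τ l) := Finset.prod_pos fun l _ => hN _
    have hX' : 0 < ∏ l, N' (τ l) := lt_of_lt_of_le (by positivity) hp1
    have hu := up _ _ hX hp1
    have hl := lo _ _ hX hX' hp2
    constructor
    · linarith
    · linarith
  · intro i hi j K hK
    rw [sq]
    apply two
    rw [← sq]
    exact (w.f1 i hi j K hK).trans (invEs s hs1)
  · intro i hi i' hi' hii j j' K hK l k hk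
    exact two K k ((w.f2 i hi i' hi' hii j j' K hK l k hk).trans (invEs s hs1))
  · intro i hi j τ hτ c hc k hk
    have h3 := w.e3 i hi j τ hτ c hc k hk
    obtain ⟨hp1, -⟩ := hpr (Fin.snoc (α := fun _ => ℕ) k (τ (Fin.last d)))
    rw [Fin.prod_univ_castSucc, Fin.prod_univ_castSucc] at hp1
    simp only [Fin.snoc_castSucc, Fin.snoc_last] at hp1
    have hX : 0 < N (τ (Fin.last d)) * ∏ l, N (k l) :=
      mul_pos (hN _) (Finset.prod_pos fun l _ => hN _)
    have hu := up (N (τ (Fin.last d)) * ∏ l, N (k l)) (N' (τ (Fin.last d)) * ∏ l, N' (k l)) hX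
      (by rw [mul_comm (N (τ (Fin.last d))), mul_comm (N' (τ (Fin.last d)))]; exact hp1)
    have h4 : 0 ≤ Z0 / (N (τ (Fin.last d)) * ∏ l, N (k l)) := by positivity
    linarith

end Pool.Agent.Helper59.RG
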