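import Pool.Agent.Helper59.RG.CorrH
import Pool.Agent.Helper59.RG.SerM
import Pool.Agent.Helper59.RE.FinB

/-!
# Block RG-ASG: the almost sure statement on an event of the first digits

PROOF.  `G = {y | α ≤ S_q(y) ≤ β}` (measurable).  If `infinitePi ν G = 0` there is nothing to prove.  Otherwise `μ' = cond (infinitePi ν) G` (`ProbabilityTheory.cond`, a
probability measure, `= (infinitePi ν G)⁻¹ • restrict G`).  As in `patternN` in `RF/FinN.lean`, with `μ'` in the place of `μ` and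
`u i y = P.eval X * X ^ a i + c i`, `X = S_q(y) + ser N q y` (`measurable_ser`): for `i ≥ M = max m₀ 1` and `l < i`:
`‖∫ e (h (u i - u l)) ∂μ'‖ = (infinitePi ν G)⁻¹ ‖∫ in G ..‖ ≤ K / i^4` with `K = (infinitePi ν G).toReal⁻¹` (`corrH` with `m = a i`, `n = a l`, `a i ≥ i`).
`l2_of_corr` and `disc_as` with `κ i = if i < M then 1 else K / i^4` (`2 i κ i` is summable, as in `finN_summable`) give the statement for `μ'`-almost
every `y`, i.e. for almost every `y ∈ G` (`ae_restrict_iff'`, `ae_smul_measure_iff` or `ProbabilityTheory.ae_cond_iff`).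
-/

namespace Pool.Agent.Helper59.RG

open Finset MeasureTheory Polynomial
open Pool.Agent.Helper59.RE (e FF Concl)

private theorem sumK62 (M : ℕ) (hM : 1 ≤ M) (K : ℝ) :
    Summable (fun i : ℕ => 2 * (i : ℝ) * (if i < M then 1 else K / (i : ℝ) ^ 4)) := by
  rw [← summable_nat_add_iff M]
  have h1 : Summable (fun i : ℕ => 2 * K * (1 / ((i + M : ℕ) : ℝ) ^ 3)) := by
    have h2 : Summable (fun n : ℕ => 1 / (n : ℝ) ^ 3) :=
      Real.summable_one_div_nat_pow.2 (by norm_num)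
    exact ((summable_nat_add_iff M).2 h2).mul_left (2 * K)
  refine h1.congr (fun i => ?_)
  rw [if_neg (by omega)]
  have h3 : ((i + M : ℕ) : ℝ) ≠ 0 := by
    have : i + M ≠ 0 := by omega
    exact_mod_cast this
  field_simp

private theorem normcond62 {Ω : Type*} [MeasurableSpace Ω] (μ : Measure Ω) (G : Set Ω) (f : Ω → ℂ) :
    ‖∫ y, f y ∂(ProbabilityTheory.cond μ G)‖ = ((μ G)⁻¹).toReal * ‖∫ y in G, f y ∂μ‖ := by
  have h : ∫ y, f y ∂(ProbabilityTheory.cond μ G) = ((μ G)⁻¹).toReal • ∫ y in G, f y ∂μ :=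
    integral_smul_measure f (μ G)⁻¹
  rw [h, norm_smul, Real.norm_of_nonneg ENNReal.toReal_nonneg]

/-- The abstract form. -/
private theorem as62 {Ω : Type*} [MeasurableSpace Ω] (μ : Measure Ω) [IsProbabilityMeasure μ]
    (G : Set Ω) (hG : MeasurableSet G) (X : Ω → ℝ) (hX : Measurable X) (P : ℝ[X]) (m₀ : ℕ)
    (hm₀ : ∀ m : ℕ, m₀ ≤ m → ∀ n < m, ∀ h : ℕ, 1 ≤ h →
      ‖∫ y in G, e (h * FF P m n (X y)) ∂μ‖ ≤ 1 / (m : ℝ) ^ 4)
    (a : ℕ → ℕ) (ha : StrictMono a) (c : ℕ → ℝ) :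
    ∀ᵐ y ∂μ, y ∈ G → Concl (fun i => P.eval (X y) * (X y) ^ a i + c i) := by
  by_cases h0 : μ G = 0
  · filter_upwards [measure_eq_zero_iff_ae_notMem.1 h0] with y hy hy2
    exact absurd hy2 hy
  · have hprob : IsProbabilityMeasure (ProbabilityTheory.cond μ G) :=
      ProbabilityTheory.cond_isProbabilityMeasure h0
    set M : ℕ := max m₀ 1 with hM
    have hM1 : 1 ≤ M := le_max_right _ _
    have hMm : m₀ ≤ M := le_max_left _ _
    obtain ⟨K, hK⟩ : ∃ K : ℝ, K = ((μ G)⁻¹).toReal := ⟨_, rfl⟩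
    have hK0 : 0 ≤ K := by rw [hK]; exact ENNReal.toReal_nonneg
    set u : ℕ → Ω → ℝ := fun i y => P.eval (X y) * (X y) ^ a i + c i with hu
    have humeas : ∀ i, Measurable (u i) := by
      intro i
      have h1 : Measurable (fun y => P.eval (X y)) := P.continuous.measurable.comp hX
      exact (h1.mul (hX.pow_const (a i))).add measurable_const
    have hai : ∀ i, i ≤ a i := fun i => ha.le_apply
    have hc : ∀ h : ℕ, 1 ≤ h → ∀ i, ∀ l < i,
        ‖∫ y, e (h * (u i y - u l y)) ∂(ProbabilityTheory.cond μ G)‖ ≤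
        (if i < M then 1 else K / (i : ℝ) ^ 4) := by
      intro h hh i l hl
      split_ifs with hi
      · have h1 := norm_integral_le_of_norm_le_const (μ := ProbabilityTheory.cond μ G) (C := 1)
          (f := fun y => e (h * (u i y - u l y)))
          (Filter.Eventually.of_forall (fun y => (Pool.Agent.Helper59.RE.norm_e _).le))
        simpa using h1
      · have hiM : M ≤ i := by omega
        have hi1 : 1 ≤ i := hM1.trans hiM
        have h1 := hm₀ (a i) ((hMm.trans hiM).trans (hai i)) (a l) (ha hl) h hh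
        have h2 : ∀ y, e (h * (u i y - u l y)) =
            e (h * FF P (a i) (a l) (X y)) * e (h * (c i - c l)) := by
          intro y
          rw [← Pool.Agent.Helper59.RE.e_add]
          congr 1
          simp only [hu, FF, Pool.Agent.Helper59.RE.G0]
          ring
        rw [normcond62, ← hK]
        have h3 : ‖∫ y in G, e (h * (u i y - u l y)) ∂μ‖ =
            ‖∫ y in G, e (h * FF P (a i) (a l) (X y)) ∂μ‖ := by
          simp only [h2]
          rw [integral_mul_const, norm_mul, Pool.Agent.Helper59.RE.norm_e, mul_one]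
        rw [h3]
        have hi0 : (0 : ℝ) < i := by exact_mod_cast hi1
        have h4 : ‖∫ y in G, e (h * FF P (a i) (a l) (X y)) ∂μ‖ ≤ 1 / (i : ℝ) ^ 4 := by
          refine h1.trans ?_
          refine one_div_le_one_div_of_le (pow_pos hi0 4) ?_
          exact pow_le_pow_left₀ hi0.le (by exact_mod_cast hai i) 4
        calc K * ‖∫ y in G, e (h * FF P (a i) (a l) (X y)) ∂μ‖ ≤ K * (1 / (i : ℝ) ^ 4) :=
              mul_le_mul_of_nonneg_left h4 hK0
          _ = K / (i : ℝ) ^ 4 := by ring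
    have hL2 := Pool.Agent.Helper59.RE.l2_of_corr (ProbabilityTheory.cond μ G) u humeas _ hc
    have hfin := Pool.Agent.Helper59.RE.disc_as (ProbabilityTheory.cond μ G) u humeas
      (fun i => 2 * (i : ℝ) * (if i < M then 1 else K / (i : ℝ) ^ 4)) (by
        intro i
        split_ifs <;> positivity) (sumK62 M hM1 K) hL2
    have hne : (μ G)⁻¹ ≠ 0 := ENNReal.inv_ne_zero.2 (measure_ne_top μ G)
    have h5 : ∀ᵐ y ∂(μ.restrict G), Concl (fun i => u i y) :=
      (Measure.ae_ennreal_smul_measure_iff hne).1 hfin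
    exact (ae_restrict_iff' hG).1 h5

theorem asG {N : ℕ → ℝ} (hN : NT N) (C : ℝ) (hC : 0 ≤ C) (A : ℕ) (x δ : ℝ) (hx : 0 < x)
    (hδ0 : 0 < δ) (hδ1 : δ ≤ 1 / 4) (ν : ℕ → Measure ℝ) [∀ k, IsProbabilityMeasure (ν k)]
    (hνB : ∀ k : ℕ, ∀ᵐ z ∂(ν k), |z| ≤ C * ((k : ℝ) + 1) ^ A)
    (hνx : ∀ η : ℝ, 0 < η → ∃ k₀ : ℕ, ∀ k : ℕ, k₀ ≤ k →
      (k : ℝ) ^ (-1 + δ) ≤ ((ν k).prod (ν k)).real {p : ℝ × ℝ | |p.1 - p.2 - x| ≤ η})
    (P : ℝ[X]) (b' w : ℝ) (hb : 1 < b') (hw : 0 < w)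
    (hP : ∀ x ∈ Set.Icc b' (b' + w), P.eval x ≠ 0) (q : ℕ) (v : ℕ → ℝ) (α β : ℝ)
    (hα : b' ≤ α - ser N q (fun k => C * ((k : ℝ) + 1) ^ A))
    (hβ : β + ser N q (fun k => C * ((k : ℝ) + 1) ^ A) ≤ b' + w)
    (a : ℕ → ℕ) (ha : StrictMono a) (c : ℕ → ℝ) :
    ∀ᵐ y ∂(Measure.infinitePi ν), α ≤ ∑ k ∈ range q, y k * v k →
      ∑ k ∈ range q, y k * v k ≤ β →
      Concl (fun i => P.eval (∑ k ∈ range q, y k * v k + ser N q y) *
        (∑ k ∈ range q, y k * v k + ser N q y) ^ a i + c i) := by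
  obtain ⟨m₀, hm₀⟩ := corrH hN C hC A x δ hx hδ0 hδ1 ν hνB hνx P b' w hb hw hP q v α β hα hβ
  have hSm : Measurable (fun y : ℕ → ℝ => ∑ k ∈ range q, y k * v k) :=
    Finset.measurable_sum _ fun k _ => (measurable_pi_apply k).mul_const _
  have hGm : MeasurableSet {y : ℕ → ℝ | α ≤ ∑ k ∈ range q, y k * v k ∧
      ∑ k ∈ range q, y k * v k ≤ β} :=
    (measurableSet_le measurable_const hSm).inter (measurableSet_le hSm measurable_const)
  have hXm : Measurable (fun y : ℕ → ℝ => ∑ k ∈ range q, y k * v k + ser N q y) :=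
    hSm.add (measurable_ser N q)
  have h := as62 (Measure.infinitePi ν) _ hGm _ hXm P m₀ hm₀ a ha c
  filter_upwards [h] with y hy h1 h2
  exact hy ⟨h1, h2⟩

end Pool.Agent.Helper59.RG
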