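import Pool.Agent.Helper59.RG.CorrG

/-!
# Block RG-CORRH: the correlations on an event of the first digits

PROOF.  First `0 < P` on `[b', b'+w]`; if `P < 0` there use `-P` and conjugation (`finA_FF_neg`, `conj_e`, `integral_conj`, as in `corrN` in `RF/FinN.lean`;
the sign of `P` is constant on the interval by the intermediate value theorem).
`m₀` from `corrG`, and `m₀ ≥ q²` so that `q ≤ q' = Nat.sqrt m`.  `F y = 1_G(y) * e (h * FF P m n (S_q(y) + ser N q y))`, `S_q(y) = ∑_(k<q) y k v k`;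
measurable, bounded by `1`.  `mix` with `q'`: for almost all `y`, `z` (bounded by `B`; `ae_all_iff`, coordinates of `infinitePi ν`) the mixed sequence
`u k = if k < q' then y k else z k` satisfies: `u ∈ G ↔ y ∈ G` (coordinates `< q ≤ q'`), `S_q(u) + ser N q u = (S_q(y) + ∑_(k ∈ Ico q q') y k / N k) + ser N q' z`
(`ser_split`, `ser N q' u = ser N q' z` because the summands agree).  So the inner integral is `1_G(y) * ∫ e (h FF (Y + ser N q' z))`, `Y = S_q(y) + ∑_(Ico q q')`, and for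
`y ∈ G` `b' ≤ Y - ser N q' B`, `Y + ser N q' B ≤ b' + w` by `ser_mid`.  So its norm is at most `1/m^4` by `corrG`, and `norm_integral_le_of_norm_le_const`.
`∫ in G` is `integral_indicator`.
-/

namespace Pool.Agent.Helper59.RG

open Finset MeasureTheory Polynomial
open Pool.Agent.Helper59.RE (e FF)

private lemma sum_upd72 (q q' : ℕ) (hq : q ≤ q') (y z v : ℕ → ℝ) :
    ∑ k ∈ range q, (if k < q' then y k else z k) * v k = ∑ k ∈ range q, y k * v k := by
  refine Finset.sum_congr rfl fun k hk => ?_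
  rw [if_pos (lt_of_lt_of_le (Finset.mem_range.1 hk) hq)]

private lemma ser_upd72 {N B : ℕ → ℝ} (hN : ∀ k, 0 < N k) (hB : Summable fun k => B k / N k) (q q' : ℕ)
    (hq : q ≤ q') (y z : ℕ → ℝ) (hy : ∀ k, |y k| ≤ B k) (hz : ∀ k, |z k| ≤ B k) :
    ser N q (fun k => if k < q' then y k else z k) = ∑ k ∈ Ico q q', y k / N k + ser N q' z := by
  have hu : ∀ k, |(if k < q' then y k else z k)| ≤ B k := by
    intro k
    split_ifs
    · exact hy k
    · exact hz k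
  rw [ser_split hN hB hu q q' hq]
  congr 1
  · refine Finset.sum_congr rfl fun k hk => ?_
    rw [if_pos (Finset.mem_Ico.1 hk).2]
  · unfold ser
    refine tsum_congr fun k => ?_
    by_cases h : q' ≤ k
    · rw [if_pos h, if_pos h]
      show (if k < q' then y k else z k) / N k = z k / N k
      rw [if_neg (not_lt.2 h)]
    · rw [if_neg h, if_neg h]

private theorem pos72 {N : ℕ → ℝ} (hN : NT N) (C : ℝ) (hC : 0 ≤ C) (A : ℕ) (x δ : ℝ) (hx : 0 < x)
    (hδ0 : 0 < δ) (hδ1 : δ ≤ 1 / 4) (ν : ℕ → Measure ℝ) [∀ k, IsProbabilityMeasure (ν k)]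
    (hνB : ∀ k : ℕ, ∀ᵐ z ∂(ν k), |z| ≤ C * ((k : ℝ) + 1) ^ A)
    (hνx : ∀ η : ℝ, 0 < η → ∃ k₀ : ℕ, ∀ k : ℕ, k₀ ≤ k →
      (k : ℝ) ^ (-1 + δ) ≤ ((ν k).prod (ν k)).real {p : ℝ × ℝ | |p.1 - p.2 - x| ≤ η})
    (P : ℝ[X]) (b' w : ℝ) (hb : 1 < b') (hw : 0 < w)
    (hP : ∀ x ∈ Set.Icc b' (b' + w), 0 < P.eval x) (q : ℕ) (v : ℕ → ℝ) (α β : ℝ)
    (hα : b' ≤ α - ser N q (fun k => C * ((k : ℝ) + 1) ^ A))
    (hβ : β + ser N q (fun k => C * ((k : ℝ) + 1) ^ A) ≤ b' + w) :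
    ∃ m₀ : ℕ, ∀ m : ℕ, m₀ ≤ m → ∀ n < m, ∀ h : ℕ, 1 ≤ h →
      ‖∫ y in {y : ℕ → ℝ | α ≤ ∑ k ∈ range q, y k * v k ∧ ∑ k ∈ range q, y k * v k ≤ β},
        e (h * FF P m n (∑ k ∈ range q, y k * v k + ser N q y)) ∂(Measure.infinitePi ν)‖ ≤
        1 / (m : ℝ) ^ 4 := by
  obtain ⟨m₀, hm₀⟩ := corrG hN C hC A x δ hx hδ0 hδ1 ν hνB hνx P b' w hb hw hP
  refine ⟨max m₀ (q ^ 2), fun m hm n hn h hh => ?_⟩
  have hm1 : m₀ ≤ m := (le_max_left _ _).trans hm
  have hq' : q ≤ Nat.sqrt m := Nat.le_sqrt'.2 ((le_max_right _ _).trans hm)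
  obtain ⟨q', hq'd⟩ : ∃ q' : ℕ, q' = Nat.sqrt m := ⟨_, rfl⟩
  have hm2 := hm₀ m hm1 n hn h hh
  rw [← hq'd] at hq' hm2
  obtain ⟨B, hB⟩ : ∃ B : ℕ → ℝ, B = fun k : ℕ => C * ((k : ℝ) + 1) ^ A := ⟨_, rfl⟩
  have hBs : Summable fun k => B k / N k := by
    rw [hB]
    exact tail_summable hN.bs C A
  rw [← hB] at hα hβ hm2
  have hνB' : ∀ k : ℕ, ∀ᵐ z ∂(ν k), |z| ≤ B k := by
    rw [hB]
    exact hνB
  have hNp := hN.bs.pos
  obtain ⟨S, hS⟩ : ∃ S : (ℕ → ℝ) → ℝ, S = fun y => ∑ k ∈ range q, y k * v k := ⟨_, rfl⟩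
  have hSm : Measurable S := by
    rw [hS]
    exact Finset.measurable_sum _ fun k _ => (measurable_pi_apply k).mul_const _
  obtain ⟨G, hG⟩ : ∃ G : Set (ℕ → ℝ), G = {y : ℕ → ℝ | α ≤ S y ∧ S y ≤ β} := ⟨_, rfl⟩
  have hGm : MeasurableSet G := by
    rw [hG]
    exact (measurableSet_le measurable_const hSm).inter (measurableSet_le hSm measurable_const)
  have hG' : {y : ℕ → ℝ | α ≤ ∑ k ∈ range q, y k * v k ∧ ∑ k ∈ range q, y k * v k ≤ β} = G := by
    rw [hG, hS]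
  obtain ⟨F0, hF0⟩ : ∃ F0 : (ℕ → ℝ) → ℂ, F0 = fun y => e (h * FF P m n (S y + ser N q y)) := ⟨_, rfl⟩
  have hF0' : (fun y : ℕ → ℝ => e (h * FF P m n (∑ k ∈ range q, y k * v k + ser N q y))) = F0 := by
    rw [hF0, hS]
  rw [hG', hF0', ← integral_indicator hGm]
  have hem : Measurable (fun t : ℝ => e t) := by
    unfold Pool.Agent.Helper59.RE.e
    fun_prop
  have hFFm : Measurable (fun t : ℝ => FF P m n t) := by
    have h1 : Continuous (fun t : ℝ => FF P m n t) := by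
      unfold Pool.Agent.Helper59.RE.FF Pool.Agent.Helper59.RE.G0
      have := P.continuous
      fun_prop
    exact h1.measurable
  have hF0m : Measurable F0 := by
    rw [hF0]
    exact hem.comp ((hFFm.comp (hSm.add (measurable_ser N q))).const_mul (h : ℝ))
  have hFm : Measurable (G.indicator F0) := hF0m.indicator hGm
  have hFb : ∀ y, ‖G.indicator F0 y‖ ≤ 1 := by
    intro y
    by_cases hy : y ∈ G
    · rw [Set.indicator_of_mem hy, hF0]
      exact (Pool.Agent.Helper59.RE.norm_e _).le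
    · rw [Set.indicator_of_notMem hy]
      simp
  rw [mix ν q' (G.indicator F0) hFm 1 hFb]
  have hbd : ∀ᵐ y ∂(Measure.infinitePi ν), ∀ k, |y k| ≤ B k :=
    ae_all_iff.2 fun k => (measurePreserving_eval_infinitePi ν k).quasiMeasurePreserving.ae (hνB' k)
  have hmain : ∀ᵐ y ∂(Measure.infinitePi ν),
      ‖∫ z, G.indicator F0 (fun k => if k < q' then y k else z k) ∂(Measure.infinitePi ν)‖ ≤ 1 / (m : ℝ) ^ 4 := by
    filter_upwards [hbd] with y hy
    have hSu : ∀ z : ℕ → ℝ, S (fun k => if k < q' then y k else z k) = S y := by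
      intro z
      rw [hS]
      exact sum_upd72 q q' hq' y z v
    by_cases hyG : y ∈ G
    · have hyG' : α ≤ S y ∧ S y ≤ β := by
        rw [hG] at hyG
        exact hyG
      have h1 : (∫ z, G.indicator F0 (fun k => if k < q' then y k else z k) ∂(Measure.infinitePi ν)) =
          ∫ z, e (h * FF P m n ((S y + ∑ k ∈ Ico q q', y k / N k) + ser N q' z)) ∂(Measure.infinitePi ν) := by
        refine integral_congr_ae ?_
        filter_upwards [hbd] with z hz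
        have h2 : (fun k => if k < q' then y k else z k) ∈ G := by
          rw [hG]
          change α ≤ S _ ∧ S _ ≤ β
          rw [hSu z]
          exact hyG'
        rw [Set.indicator_of_mem h2, hF0]
        dsimp only
        rw [hSu z, ser_upd72 hNp hBs q q' hq' y z hy hz, add_assoc]
      rw [h1]
      have h3 := abs_le.1 (ser_mid hNp hBs hy q q' hq')
      refine hm2 _ ?_ ?_
      · linarith [h3.1, hyG'.1]
      · linarith [h3.2, hyG'.2]
    · have h1 : ∀ z : ℕ → ℝ, G.indicator F0 (fun k => if k < q' then y k else z k) = 0 := by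
        intro z
        refine Set.indicator_of_notMem ?_ _
        intro h2
        rw [hG] at h2 hyG
        have h3 : α ≤ S (fun k => if k < q' then y k else z k) ∧ S (fun k => if k < q' then y k else z k) ≤ β := h2
        rw [hSu z] at h3
        exact hyG h3
      simp only [h1, integral_zero, norm_zero]
      positivity
  have h4 := norm_integral_le_of_norm_le_const hmain
  simpa using h4

theorem corrH {N : ℕ → ℝ} (hN : NT N) (C : ℝ) (hC : 0 ≤ C) (A : ℕ) (x δ : ℝ) (hx : 0 < x)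
    (hδ0 : 0 < δ) (hδ1 : δ ≤ 1 / 4) (ν : ℕ → Measure ℝ) [∀ k, IsProbabilityMeasure (ν k)]
    (hνB : ∀ k : ℕ, ∀ᵐ z ∂(ν k), |z| ≤ C * ((k : ℝ) + 1) ^ A)
    (hνx : ∀ η : ℝ, 0 < η → ∃ k₀ : ℕ, ∀ k : ℕ, k₀ ≤ k →
      (k : ℝ) ^ (-1 + δ) ≤ ((ν k).prod (ν k)).real {p : ℝ × ℝ | |p.1 - p.2 - x| ≤ η})
    (P : ℝ[X]) (b' w : ℝ) (hb : 1 < b') (hw : 0 < w)
    (hP : ∀ x ∈ Set.Icc b' (b' + w), P.eval x ≠ 0) (q : ℕ) (v : ℕ → ℝ) (α β : ℝ)
    (hα : b' ≤ α - ser N q (fun k => C * ((k : ℝ) + 1) ^ A))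
    (hβ : β + ser N q (fun k => C * ((k : ℝ) + 1) ^ A) ≤ b' + w) :
    ∃ m₀ : ℕ, ∀ m : ℕ, m₀ ≤ m → ∀ n < m, ∀ h : ℕ, 1 ≤ h →
      ‖∫ y in {y : ℕ → ℝ | α ≤ ∑ k ∈ range q, y k * v k ∧ ∑ k ∈ range q, y k * v k ≤ β},
        e (h * FF P m n (∑ k ∈ range q, y k * v k + ser N q y)) ∂(Measure.infinitePi ν)‖ ≤
        1 / (m : ℝ) ^ 4 := by
  have hb0 : b' ∈ Set.Icc b' (b' + w) := ⟨le_refl _, by linarith⟩
  have hcont : ContinuousOn (fun x => P.eval x) (Set.Icc b' (b' + w)) :=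
    P.continuous.continuousOn
  rcases lt_or_gt_of_ne (hP b' hb0) with h0 | h0
  · -- negative
    have hneg : ∀ x ∈ Set.Icc b' (b' + w), 0 < (-P).eval x := by
      intro x hx
      rw [eval_neg, neg_pos]
      by_contra hcon
      push Not at hcon
      have hsub : Set.Icc b' x ⊆ Set.Icc b' (b' + w) :=
        Set.Icc_subset_Icc le_rfl hx.2
      have h1 : (0 : ℝ) ∈ Set.Icc (P.eval b') (P.eval x) := ⟨h0.le, hcon⟩
      obtain ⟨y, hy, hy0⟩ := intermediate_value_Icc hx.1 (hcont.mono hsub) h1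
      exact hP y (hsub hy) hy0
    obtain ⟨m₀, hm₀⟩ := pos72 hN C hC A x δ hx hδ0 hδ1 ν hνB hνx (-P) b' w hb hw hneg q v α β hα hβ
    refine ⟨m₀, fun m hm n hn h hh => ?_⟩
    have h1 := hm₀ m hm n hn h hh
    have h2 : (∫ y in {y : ℕ → ℝ | α ≤ ∑ k ∈ range q, y k * v k ∧ ∑ k ∈ range q, y k * v k ≤ β},
        e (h * FF (-P) m n (∑ k ∈ range q, y k * v k + ser N q y)) ∂(Measure.infinitePi ν)) =
        (starRingEnd ℂ) (∫ y in {y : ℕ → ℝ | α ≤ ∑ k ∈ range q, y k * v k ∧ ∑ k ∈ range q, y k * v k ≤ β},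
        e (h * FF P m n (∑ k ∈ range q, y k * v k + ser N q y)) ∂(Measure.infinitePi ν)) := by
      rw [← integral_conj]
      congr 1
      funext y
      rw [Pool.Agent.Helper59.RE.conj_e]
      congr 1
      unfold Pool.Agent.Helper59.RE.FF
      rw [eval_neg]
      ring
    rw [h2, RCLike.norm_conj] at h1
    exact h1
  · have hpos : ∀ x ∈ Set.Icc b' (b' + w), 0 < P.eval x := by
      intro x hx
      by_contra hcon
      push Not at hcon
      have hsub : Set.Icc b' x ⊆ Set.Icc b' (b' + w) :=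
        Set.Icc_subset_Icc le_rfl hx.2
      have h1 : (0 : ℝ) ∈ Set.Icc (P.eval x) (P.eval b') := ⟨hcon, h0.le⟩
      obtain ⟨y, hy, hy0⟩ := intermediate_value_Icc' hx.1 (hcont.mono hsub) h1
      exact hP y (hsub hy) hy0
    exact pos72 hN C hC A x δ hx hδ0 hδ1 ν hνB hνx P b' w hb hw hpos q v α β hα hβ

end Pool.Agent.Helper59.RG
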