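import Pool.Agent.Helper59.RF.Defs

/-!
# Project RG (MP_9056e9_nt): random series.  Definitions

`X = ∑ ξ_k r^k / (k!)^κ`, the `ξ_k` independent and arbitrary, such that two independent copies of `ξ_k` differ by nearly `x` with
probability `≥ k^(-1+δ)`.
-/

namespace Pool.Agent.Helper59.RG

open Finset MeasureTheory

/-- A digit: a pair of values, one of which is chosen by a fair bit, or one value. -/
abbrev DE : Type := (ℝ × ℝ) ⊕ ℝ

/-- The value of the digit `c`, given the fair bit `t`. -/
def sel (c : DE) (t : Bool) : ℝ := Sum.elim (fun p : ℝ × ℝ => if t then p.1 else p.2) (fun z => z) c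

/-- The digits in `S` which are chosen by a fair bit. -/
def fs (S : Finset ℕ) (c : ℕ → DE) : Finset ℕ := S.filter (fun k => (c k).isLeft = true)

/-- The series `∑_(k ≥ q) y k / N k`. -/
noncomputable def ser (N : ℕ → ℝ) (q : ℕ) (y : ℕ → ℝ) : ℝ := ∑' k : ℕ, if q ≤ k then y k / N k else 0

/-- The conditions on the digits: bounded by `B k`, and the two values of a fair digit differ by nearly `x`. -/
structure Ok (B : ℕ → ℝ) (x ε : ℝ) (c : ℕ → DE) : Prop where
  pr : ∀ k p, c k = Sum.inl p → |p.1 - p.2 - x| ≤ ε / 2 * x
  bd : ∀ k t, |sel (c k) t| ≤ B k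

theorem measurable_sel (t : Bool) : Measurable (fun c : DE => sel c t) := by
  unfold sel
  refine Measurable.sumElim ?_ measurable_id
  cases t
  · simpa using measurable_snd
  · simpa using measurable_fst

end Pool.Agent.Helper59.RG
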